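import Pool.Agent.W723.MC.Topo

/-!
The abstract criterion for a complementary component of type 2.
-/

set_option autoImplicit false

open Filter Topology Metric Set

namespace Pool.Agent.W723.MC

open Pool.Agent.H384R2.Fatou

theorem comp_eq {f : ℂ → ℂ} {x y : ℂ} (h : y ∈ FatouComponent f x) :
    FatouComponent f x = FatouComponent f y := connectedComponentIn_eq h

theorem comp_eq_of_mem {f : ℂ → ℂ} {x y z : ℂ} (h : z ∈ FatouComponent f x)
    (h' : z ∈ FatouComponent f y) : FatouComponent f x = FatouComponent f y :=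
  (comp_eq h).trans (comp_eq h').symm

theorem closure_comp {f : ℂ → ℂ} {x z : ℂ} (hx : x ∈ FatouSet f)
    (h : x ∈ closure (FatouComponent f z)) : x ∈ FatouComponent f z := by
  have h1 : FatouComponent f x ∈ 𝓝 x :=
    (component_isOpen f x).mem_nhds (mem_connectedComponentIn hx)
  obtain ⟨y, hy1, hy2⟩ := mem_closure_iff_nhds.1 h _ h1
  rw [← comp_eq_of_mem hy1 hy2]
  exact mem_connectedComponentIn hx

/-- A preconnected set containing a point of an open ball and missing the sphere lies in the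
ball. -/
theorem subset_ball_of_sphere {S : Set ℂ} (hS : IsPreconnected S) {c x : ℂ} {R : ℝ} (hx : x ∈ S)
    (hxR : dist x c < R) (hsp : ∀ y ∈ S, y ∉ sphere c R) : S ⊆ ball c R := by
  intro y hy
  by_contra hcon
  have h1 : R ≤ dist y c := by simpa [mem_ball] using hcon
  have := hS.intermediate_value hx hy (f := fun z => dist z c) (by fun_prop)
  obtain ⟨z, hz, hz2⟩ := this ⟨hxR.le, h1⟩
  exact hsp z hz hz2

theorem abstract_type2 {f : ℂ → ℂ} (hf : Differentiable ℂ f)
    (hopen : ∀ s : Set ℂ, IsOpen s → IsOpen (f '' s))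
    {B G H : ℕ → Set ℂ} {c p : ℕ → ℂ} {δ R m : ℕ → ℝ} (hm : Tendsto m atTop atTop)
    (hBo : ∀ k, IsOpen (B k)) (hBB : ∀ k, MapsTo f (B k) (B (k + 1)))
    (hBm : ∀ k, ∀ z ∈ B k, m k ≤ ‖z‖)
    (hBG : ∀ k, B k ⊆ G k) (hGc : ∀ k, IsPreconnected (G k))
    (hGB : ∀ k, MapsTo f (G k) (B (k + 1)))
    (hp : ∀ k, p k ∈ B k)
    (hHc : ∀ k, IsPreconnected (H k)) (hHs : ∀ k, sphere (c k) (R k) ⊆ H k)
    (hHG : ∀ k, (H k ∩ G k).Nonempty) (hHf : ∀ k, MapsTo f (H k) (G (k + 1)))
    (hδ : ∀ k, 0 < δ k) (hR : ∀ k, 0 < R k)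
    (hΔ : ∀ k, MapsTo f (ball (c k) (δ k)) (ball (c (k + 1)) (δ (k + 1))))
    (hΔm : ∀ k, ∀ z ∈ ball (c k) (δ k), m k ≤ ‖z‖)
    (hRm : ∀ k, ∀ z ∈ ball (c k) (R k), m k ≤ ‖z‖)
    (hpo : ∀ k, p (k + 1) ∉ f '' (ball (c k) (R k)))
    (hsep : ∀ k, ∀ C : ℝ, ∃ᶠ n in atTop,
      C * Real.log ‖f^[n] (c k)‖ < Real.log ‖f^[n] (p k)‖)
    (hsep2 : ∀ j k, j + 2 ≤ k → ∀ C : ℝ, ∃ᶠ n in atTop,
      C * Real.log ‖f^[n] (p j)‖ < Real.log ‖f^[n] (p k)‖) :
    ∃ U : Set ℂ, (∃ z ∈ FatouSet f, U = FatouComponent f z) ∧ IsWanderingDomain f U ∧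
      ¬ IsConnected Uᶜ ∧ ∃ K : Set ℂ, (∃ z ∈ Uᶜ, K = connectedComponentIn Uᶜ z) ∧
        Bornology.IsBounded K ∧ (interior K).Nonempty ∧
        ∃ 𝒱 : Set (Set ℂ), (∀ V ∈ 𝒱, ∃ z ∈ FatouSet f, V = FatouComponent f z) ∧
          interior K = ⋃₀ 𝒱 := by
  have hfc : Continuous f := hf.continuous
  -- a family of sets mapped into each other on which the norm is large escapes
  have esc_of : ∀ X : ℕ → Set ℂ, (∀ k, MapsTo f (X k) (X (k + 1))) →
      (∀ k, ∀ z ∈ X k, m k ≤ ‖z‖) → ∀ k, EscOn f (X k) := by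
    intro X h1 h2 k T
    have h3 : ∀ n, MapsTo f^[n] (X k) (X (k + n)) := by
      intro n
      induction n with
      | zero => intro x hx; simpa using hx
      | succ n ih =>
        intro x hx
        rw [Function.iterate_succ_apply']
        exact h1 _ (ih hx)
    have h4 : Tendsto (fun n => m (k + n)) atTop atTop :=
      hm.comp (tendsto_add_atTop_nat k |>.congr fun n => by ring)
    filter_upwards [h4.eventually_ge_atTop T] with n hn z hz
    exact hn.trans (h2 _ _ (h3 n hz))
  have hBesc := esc_of B hBB hBm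
  have hΔesc := esc_of (fun k => ball (c k) (δ k)) hΔ hΔm
  have hBF : ∀ k, B k ⊆ FatouSet f := fun k => subset_fatou_of_escOn (hBesc k) (hBo k)
  have hΔF : ∀ k, ball (c k) (δ k) ⊆ FatouSet f :=
    fun k => subset_fatou_of_escOn (hΔesc k) isOpen_ball
  have hGF : ∀ k, G k ⊆ FatouSet f := fun k z hz => fatou_backward hfc (hBF _ (hGB k hz))
  have hHF : ∀ k, H k ⊆ FatouSet f := fun k z hz => fatou_backward hfc (hGF _ (hHf k hz))
  have hpF : ∀ k, p k ∈ FatouSet f := fun k => hBF k (hp k)
  have hpn : ∀ k, B k ∈ 𝓝 (p k) := fun k => (hBo k).mem_nhds (hp k)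
  set U : ℕ → Set ℂ := fun k => FatouComponent f (p k) with hU
  have hpU : ∀ k, p k ∈ U k := fun k => mem_connectedComponentIn (hpF k)
  have hGU : ∀ k, G k ⊆ U k := fun k =>
    (hGc k).subset_connectedComponentIn (hBG k (hp k)) (hGF k)
  have hHU : ∀ k, H k ⊆ U k := by
    intro k
    obtain ⟨x, hxH, hxG⟩ := hHG k
    have h1 : IsPreconnected (H k ∪ G k) := (hHc k).union x hxH hxG (hGc k)
    exact (subset_union_left).trans (h1.subset_connectedComponentIn
      (Or.inr (hBG k (hp k))) (union_subset (hHF k) (hGF k)))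
  have hUU : ∀ k, MapsTo f (U k) (U (k + 1)) := by
    intro k x hx
    have h1 := component_map hfc hopen (hpF k) 1
    have h2 : f x ∈ FatouComponent f (f (p k)) := h1 ⟨x, hx, rfl⟩
    have h3 : f (p k) ∈ U (k + 1) := hGU _ (hBG _ (hBB k (hp k)))
    rwa [← comp_eq h3] at h2
  have hcU : ∀ k, c k ∉ U k := by
    intro k hk
    obtain ⟨C, hC, h⟩ := growth_compare hf (hpF k) (hpn k) (hBesc k) hk
    obtain ⟨n, h1, h2⟩ := ((hsep k C).and_eventually h).exists
    linarith [h2.2]
  have hUne2 : ∀ j k, j + 2 ≤ k → U j ≠ U k := by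
    intro j k hjk h
    have h1 : p k ∈ FatouComponent f (p j) := by
      have := hpU k
      rwa [← h] at this
    obtain ⟨C, hC, h2⟩ := growth_compare hf (hpF j) (hpn j) (hBesc j) h1
    obtain ⟨n, h3, h4⟩ := ((hsep2 j k hjk C).and_eventually h2).exists
    linarith [h4.1]
  have hUne1 : ∀ j, U j ≠ U (j + 1) := by
    intro j h
    have h1 : f (p j) ∈ U (j + 1) := hUU j (hpU j)
    have h2 : f (p j) ∈ U (j + 1 + 1) := by
      apply hUU (j + 1)
      rw [← h]
      exact hpU j
    have h3 : U (j + 1) = U (j + 1 + 1) := comp_eq_of_mem h1 h2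
    exact hUne2 j (j + 2) le_rfl (h.trans h3)
  have hUne : ∀ j k, j < k → U j ≠ U k := by
    intro j k hjk
    rcases Nat.lt_or_ge k (j + 2) with h | h
    · have : k = j + 1 := by omega
      rw [this]; exact hUne1 j
    · exact hUne2 j k h
  have hUne' : ∀ j k, j ≠ k → U j ≠ U k := by
    intro j k hjk
    rcases lt_or_gt_of_ne hjk with h | h
    · exact hUne j k h
    · exact (hUne k j h).symm
  -- the small discs miss U k
  have hΔU : ∀ k, ball (c k) (δ k) ⊆ (U k)ᶜ := by
    intro k x hx hxU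
    have h1 : ball (c k) (δ k) ⊆ FatouComponent f x :=
      (convex_ball _ _).isPreconnected.subset_connectedComponentIn hx (hΔF k)
    have h2 := h1 (mem_ball_self (hδ k))
    rw [← comp_eq hxU] at h2
    exact hcU k h2
  set K : ℕ → Set ℂ := fun k => connectedComponentIn (U k)ᶜ (c k) with hK
  have hΔK : ∀ k, ball (c k) (δ k) ⊆ K k := fun k =>
    (convex_ball _ _).isPreconnected.subset_connectedComponentIn (mem_ball_self (hδ k)) (hΔU k)
  have hcK : ∀ k, c k ∈ K k := fun k => hΔK k (mem_ball_self (hδ k))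
  have hKR : ∀ k, K k ⊆ ball (c k) (R k) := fun k =>
    subset_ball_of_sphere isPreconnected_connectedComponentIn (hcK k)
      (by simpa using hR k) (fun y hy hys =>
        connectedComponentIn_subset _ _ hy (hHU k (hHs k hys)))
  have hKU : ∀ k, ∀ z ∈ K k, f z ∉ U (k + 1) := by
    intro k z hz hfz
    have hzF : z ∈ FatouSet f := fatou_backward hfc (connectedComponentIn_subset _ _ hfz)
    set W := FatouComponent f z with hW
    have hWR : W ⊆ ball (c k) (R k) := by
      apply subset_ball_of_sphere isPreconnected_connectedComponentIn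
        (mem_connectedComponentIn hzF) (hKR k hz)
      intro y hy hys
      have h1 : y ∈ U k := hHU k (hHs k hys)
      have h2 : W = U k := comp_eq_of_mem hy h1
      have h3 : z ∈ U k := by rw [← h2]; exact mem_connectedComponentIn hzF
      exact connectedComponentIn_subset _ _ hz h3
    have hWc : IsCompact (closure W) :=
      (isBounded_ball.subset hWR).isCompact_closure
    have hfW : f '' W ⊆ U (k + 1) := by
      have h1 := component_map hfc hopen hzF 1
      have h2 : U (k + 1) = FatouComponent f (f z) := comp_eq hfz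
      rw [h2]
      exact h1
    have h1 : U (k + 1) ⊆ f '' W := by
      apply IsPreconnected.subset_of_closure_inter_subset isPreconnected_connectedComponentIn
        (hopen _ (component_isOpen f z))
      · exact ⟨f z, hfz, z, mem_connectedComponentIn hzF, rfl⟩
      · rintro y ⟨hy, hyU⟩
        have h2 : closure (f '' W) ⊆ f '' closure W :=
          closure_minimal (image_mono subset_closure) (hWc.image hfc).isClosed
        obtain ⟨x, hx, rfl⟩ := h2 hy
        have hxF : x ∈ FatouSet f := fatou_backward hfc (connectedComponentIn_subset _ _ hyU)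
        exact ⟨x, closure_comp hxF hx, rfl⟩
    obtain ⟨x, hx, hx2⟩ := h1 (hpU (k + 1))
    exact hpo k ⟨x, hWR hx, hx2⟩
  have hKK : ∀ k, MapsTo f (K k) (K (k + 1)) := by
    intro k x hx
    have h1 : f (c k) ∈ K (k + 1) := hΔK _ (hΔ k (mem_ball_self (hδ k)))
    have h2 : f '' K k ⊆ connectedComponentIn (U (k + 1))ᶜ (f (c k)) := by
      apply IsPreconnected.subset_connectedComponentIn
      · exact isPreconnected_connectedComponentIn.image _ hfc.continuousOn
      · exact ⟨c k, hcK k, rfl⟩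
      · rintro _ ⟨y, hy, rfl⟩
        exact hKU k y hy
    have h3 : connectedComponentIn (U (k + 1))ᶜ (c (k + 1)) =
        connectedComponentIn (U (k + 1))ᶜ (f (c k)) := connectedComponentIn_eq h1
    change f x ∈ connectedComponentIn (U (k + 1))ᶜ (c (k + 1))
    rw [h3]
    exact h2 ⟨x, hx, rfl⟩
  have hKesc := esc_of K hKK (fun k z hz => hRm k z (hKR k hz))
  refine ⟨U 0, ⟨p 0, hpF 0, rfl⟩, ?_, ?_, K 0, ⟨c 0, hcU 0, rfl⟩,
    isBounded_ball.subset (hKR 0), ?_, ?_⟩
  · refine ⟨U, rfl, fun k => ⟨p k, hpF k, rfl⟩, fun k => ?_, hUne'⟩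
    induction k with
    | zero => simp
    | succ k ih =>
      rintro _ ⟨x, hx, rfl⟩
      rw [Function.iterate_succ_apply']
      exact hUU k (ih ⟨x, hx, rfl⟩)
  · intro hcon
    have h1 : (U 0)ᶜ ⊆ K 0 :=
      hcon.isPreconnected.subset_connectedComponentIn (hcU 0) subset_rfl
    have h2 : (U 0)ᶜ ⊆ ball (c 0) (R 0) := h1.trans (hKR 0)
    -- all the later components meet the complement far away
    have h3 : ∀ k, 1 ≤ k → p k ∈ ball (c 0) (R 0) := by
      intro k hk
      apply h2
      intro h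
      exact hUne' 0 k (by omega) (comp_eq_of_mem h (hpU k))
    obtain ⟨n, hn1, hn2⟩ := ((hm.eventually_gt_atTop (‖c 0‖ + R 0)).and
      (eventually_ge_atTop 1)).exists
    have h4 := hBm n _ (hp n)
    have h5 : ‖p n - c 0‖ < R 0 := by
      have := h3 n hn2
      rwa [mem_ball, dist_eq_norm] at this
    have h6 : ‖p n‖ ≤ ‖p n - c 0‖ + ‖c 0‖ := by
      simpa using norm_add_le (p n - c 0) (c 0)
    linarith
  · exact ⟨c 0, mem_interior.2 ⟨_, hΔK 0, isOpen_ball, mem_ball_self (hδ 0)⟩⟩
  · have hint : interior (K 0) ⊆ FatouSet f :=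
      subset_fatou_of_escOn ((hKesc 0).mono interior_subset) isOpen_interior
    refine ⟨(fun z => FatouComponent f z) '' interior (K 0), ?_, ?_⟩
    · rintro _ ⟨z, hz, rfl⟩
      exact ⟨z, hint hz, rfl⟩
    · apply Subset.antisymm
      · intro z hz
        exact ⟨_, ⟨z, hz, rfl⟩, mem_connectedComponentIn (hint hz)⟩
      · rintro x ⟨_, ⟨z, hz, rfl⟩, hx⟩
        have hzU : z ∉ U 0 := connectedComponentIn_subset _ _ (interior_subset hz)
        have h1 : FatouComponent f z ⊆ (U 0)ᶜ := by
          intro y hy hyU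
          have h5 := comp_eq_of_mem hy hyU
          have h6 : z ∈ FatouComponent f z := mem_connectedComponentIn (hint hz)
          rw [h5] at h6
          exact hzU h6
        have h2 : FatouComponent f z ⊆ K 0 := by
          have h3 : K 0 = connectedComponentIn (U 0)ᶜ z :=
            connectedComponentIn_eq (interior_subset hz)
          rw [h3]
          exact isPreconnected_connectedComponentIn.subset_connectedComponentIn
            (mem_connectedComponentIn (hint hz)) h1
        exact mem_interior.2 ⟨_, h2, component_isOpen f z, hx⟩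

end Pool.Agent.W723.MC
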