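import Pool.Agent.W723.MC.Fn

/-!
Estimates for the entire function.
-/

set_option autoImplicit false

open Filter Topology Metric Set Polynomial

namespace Pool.Agent.W723.MC

/-- outer radius of the annulus number `k` -/
noncomputable def RR (k : ℕ) : ℝ := aa (k + 1) / (dd (k + 1) : ℝ) ^ 50

theorem aa_pos (k : ℕ) : 0 < aa k := by linarith [aa_one k]

theorem dd_pos (k : ℕ) : (0 : ℝ) < dd k := by linarith [dd_real k]

theorem cc_ne (k : ℕ) : cc k ≠ 0 := (good k).c_ne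

theorem norm_cc (k : ℕ) : ‖cc k‖ = aa k := rfl

theorem ten_le_RR (k : ℕ) : 10 * aa k < RR k := by
  rw [RR, lt_div_iff₀ (by have := dd_pos (k + 1); positivity)]
  have h1 := aa_ha k
  have h2 := aa_one k
  have h3 := dd_real (k + 1)
  have h4 : (dd (k + 1) : ℝ) ^ 50 ≤ (dd (k + 1) : ℝ) ^ 80 :=
    pow_le_pow_right₀ (by linarith) (by norm_num)
  have h5 : (0 : ℝ) < (dd (k + 1) : ℝ) ^ 50 := by positivity
  calc 10 * aa k * (dd (k + 1) : ℝ) ^ 50 < 16 * (1 + 2 * aa k) ^ 2 * (dd (k + 1) : ℝ) ^ 50 := by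
        have h6 : 10 * aa k < 16 * (1 + 2 * aa k) ^ 2 := by nlinarith
        gcongr
    _ ≤ 16 * (1 + 2 * aa k) ^ 2 * (dd (k + 1) : ℝ) ^ 80 := by gcongr
    _ = 16 * (dd (k + 1) : ℝ) ^ 80 * (1 + 2 * aa k) ^ 2 := by ring
    _ ≤ _ := h1

theorem RR_le (k : ℕ) : RR k ≤ aa (k + 1) := by
  rw [RR]
  apply div_le_self (aa_pos _).le
  exact one_le_pow₀ (by linarith [dd_real (k + 1)])

theorem dd_succ_le (k : ℕ) : (dd (k + 1) : ℝ) ≤ 12 * dd k := by
  rw [dd_succ]; push_cast; linarith [dd_real k]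

theorem tail' {k : ℕ} {z : ℂ} (hz : ‖z‖ ≤ RR k) :
    ∃ T : ℂ, ff z = (FF (k + 1)).eval z * (1 + T) ∧ ‖T‖ ≤ 1 / (100 * (dd (k + 1) : ℝ) ^ 4) := by
  have h := tail (k := k + 1) hz
  have hD := dd_pos (k + 1)
  by_cases h0 : (FF (k + 1)).eval z = 0
  · refine ⟨0, ?_, by rw [norm_zero]; positivity⟩
    rw [h0, norm_zero, mul_zero, sub_zero] at h
    rw [h0, zero_mul]
    exact norm_le_zero_iff.1 h
  · refine ⟨(ff z - (FF (k + 1)).eval z) / (FF (k + 1)).eval z, ?_, ?_⟩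
    · field_simp
      ring
    · rw [norm_div, div_le_iff₀ (norm_pos_iff.2 h0)]
      exact h

theorem T_half {k : ℕ} {T : ℂ} (hT : ‖T‖ ≤ 1 / (100 * (dd (k + 1) : ℝ) ^ 4)) : ‖T‖ ≤ 1 / 100 := by
  refine hT.trans ?_
  have h1 : (1 : ℝ) ≤ (dd (k + 1) : ℝ) ^ 4 := one_le_pow₀ (by linarith [dd_real (k + 1)])
  exact div_le_div_of_nonneg_left (by norm_num) (by norm_num) (by linarith)

/-- general lower bound from the polynomial -/
theorem ff_lower {k : ℕ} {z : ℂ} (hz : ‖z‖ ≤ RR k) {t : ℝ}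
    (ht : t ≤ ‖(FF (k + 1)).eval z‖) : 99 / 100 * t ≤ ‖ff z‖ := by
  obtain ⟨T, h1, h2⟩ := tail' hz
  have h3 := T_half h2
  rw [h1, norm_mul]
  have h4 : 99 / 100 ≤ ‖1 + T‖ := by
    have := norm_sub_norm_le (1 : ℂ) (-T)
    rw [norm_one, norm_neg, sub_neg_eq_add] at this
    linarith
  have h5 := norm_nonneg ((FF (k + 1)).eval z)
  nlinarith

theorem ff_upper {k : ℕ} {z : ℂ} (hz : ‖z‖ ≤ RR k) : ‖ff z‖ ≤ 2 * ‖(FF (k + 1)).eval z‖ := by
  obtain ⟨T, h1, h2⟩ := tail' hz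
  have h3 := T_half h2
  rw [h1, norm_mul]
  have h4 : ‖1 + T‖ ≤ 2 := by
    have := norm_add_le (1 : ℂ) T
    rw [norm_one] at this
    linarith
  have h5 := norm_nonneg ((FF (k + 1)).eval z)
  nlinarith

theorem formula (k : ℕ) (ζ : ℂ) : (FF (k + 1)).eval (cc k * (1 + ζ)) =
    cc (k + 1) * (((FF k).eval (cc k * (1 + ζ)) / (FF k).eval (cc k)) *
      (1 - al (FF k) (cc k) * cc k * ζ) * (1 + ((dd k : ℂ) ^ 4 * ζ) ^ (10 * dd k))) := by
  have h := (good k).next_formula (cc k * (1 + ζ))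
  have hc := cc_ne k
  have e1 : cc k * (1 + ζ) - cc k = cc k * ζ := by ring
  have e2 : (dd k : ℂ) ^ 4 / cc k * (cc k * ζ) = (dd k : ℂ) ^ 4 * ζ := by field_simp
  rw [e1, e2] at h
  rw [FF_succ, cc_succ, FF_succ, h]
  ring

/-- Upper bound. -/
theorem est_upper {k : ℕ} {z : ℂ} (hz : ‖z‖ ≤ RR k) : ‖ff z‖ < RR (k + 1) := by
  set D : ℝ := (dd (k + 1) : ℝ) with hDdef
  have hD : (10000 : ℝ) ≤ D := dd_real (k + 1)
  have g := good (k + 1)
  set F' := FF (k + 1) with hF'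
  have hup := eval_upper F' g.card (b := 2 * aa k) (hb' k) z
  have ha' : 2 * aa k ≤ aa (k + 1) / 4 := by
    have := ten_le_RR k
    have := RR_le k
    linarith [aa_pos k]
  have hlow := eval_lower F' g.card (b := 2 * aa k) (hb' k) (z := cc (k + 1))
    (by rw [norm_cc]; linarith [aa_pos (k + 1)])
  rw [norm_cc] at hlow
  have hnext : ‖F'.eval (cc (k + 1))‖ ≤ aa (k + 2) * (4 * D * D ^ (40 * dd (k + 1))) := by
    have h2 : aa (k + 2) = ‖F'.eval (cc (k + 1))‖ * ‖ZZ F' (cc (k + 1)) (dd (k + 1))‖⁻¹ := by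
      rw [← norm_cc, cc_succ' (k + 1), norm_mul, norm_inv]
    have h4 := g.ZZ_upper
    have h5 := g.ZZ_lower
    have h6 : ‖F'.eval (cc (k + 1))‖ = aa (k + 2) * ‖ZZ F' (cc (k + 1)) (dd (k + 1))‖ := by
      rw [h2, mul_assoc, inv_mul_cancel₀ (by linarith), mul_one]
    rw [h6]
    exact mul_le_mul_of_nonneg_left h4 (aa_pos (k + 2)).le
  -- combine
  have hzb : ‖z‖ + 2 * aa k ≤ 2 * (aa (k + 1) / D ^ 50) := by
    have h1 : 10 * aa k < aa (k + 1) / D ^ 50 := ten_le_RR k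
    have h2 : ‖z‖ ≤ aa (k + 1) / D ^ 50 := hz
    linarith [aa_pos k]
  have hap := aa_pos (k + 1)
  have hL := norm_nonneg F'.leadingCoeff
  set m : ℕ := dd (k + 1) with hm
  have key1 : ‖F'.eval z‖ * (aa (k + 1) / 2) ^ m ≤
      ‖F'.eval (cc (k + 1))‖ * (2 * (aa (k + 1) / D ^ 50)) ^ m := by
    have hnn : 0 ≤ ‖z‖ + 2 * aa k := by have := norm_nonneg z; have := aa_pos k; linarith
    calc ‖F'.eval z‖ * (aa (k + 1) / 2) ^ m
        ≤ (‖F'.leadingCoeff‖ * (‖z‖ + 2 * aa k) ^ m) * (aa (k + 1) - 2 * aa k) ^ m := by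
          gcongr
          linarith
      _ ≤ (‖F'.leadingCoeff‖ * (2 * (aa (k + 1) / D ^ 50)) ^ m) * (aa (k + 1) - 2 * aa k) ^ m := by
          have : 0 ≤ aa (k + 1) - 2 * aa k := by linarith
          gcongr
      _ = (‖F'.leadingCoeff‖ * (aa (k + 1) - 2 * aa k) ^ m) * (2 * (aa (k + 1) / D ^ 50)) ^ m := by
          ring
      _ ≤ _ := by gcongr
  have key2 : ‖F'.eval z‖ ≤ ‖F'.eval (cc (k + 1))‖ * (4 / D ^ 50) ^ m := by
    have hpos : 0 < (aa (k + 1) / 2) ^ m := by positivity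
    refine le_of_mul_le_mul_right (key1.trans (le_of_eq ?_)) hpos
    have : (2 * (aa (k + 1) / D ^ 50)) = (4 / D ^ 50) * (aa (k + 1) / 2) := by ring
    rw [this, mul_pow]
    ring
  have key3 : ‖F'.eval z‖ ≤ aa (k + 2) * (4 * D * (D ^ (40 * m) * (4 / D ^ 50) ^ m)) := by
    calc ‖F'.eval z‖ ≤ ‖F'.eval (cc (k + 1))‖ * (4 / D ^ 50) ^ m := key2
      _ ≤ (aa (k + 2) * (4 * D * D ^ (40 * m))) * (4 / D ^ 50) ^ m := by gcongr
      _ = _ := by ring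
  have e5 : D ^ (40 * m) * (4 / D ^ 50) ^ m ≤ 1 / D ^ (9 * m) := by
    rw [le_div_iff₀ (by positivity), div_pow, ← pow_mul]
    rw [mul_div_assoc', div_mul_eq_mul_div, div_le_one (by positivity)]
    calc D ^ (40 * m) * 4 ^ m * D ^ (9 * m) ≤ D ^ (40 * m) * D ^ m * D ^ (9 * m) := by
          gcongr
          linarith
      _ = D ^ (50 * m) := by rw [← pow_add, ← pow_add]; congr 1; ring
  have hdd2 : (dd (k + 2) : ℝ) ≤ 12 * D := dd_succ_le (k + 1)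
  have hDD := dd_pos (k + 2)
  have key4 : 8 * D * (dd (k + 2) : ℝ) ^ 50 < D ^ (9 * m) := by
    calc 8 * D * (dd (k + 2) : ℝ) ^ 50 ≤ 8 * D * (12 * D) ^ 50 := by gcongr
      _ ≤ D * D * (D * D) ^ 50 := by
          gcongr
          · linarith
          · linarith
      _ = D ^ 102 := by ring
      _ < D ^ (9 * m) := by
          apply pow_lt_pow_right₀ (by linarith)
          have : 10000 ≤ m := g.hd
          omega
  have hpos2 : 0 < D ^ (9 * m) := by positivity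
  calc ‖ff z‖ ≤ 2 * ‖F'.eval z‖ := ff_upper hz
    _ ≤ 2 * (aa (k + 2) * (4 * D * (1 / D ^ (9 * m)))) := by
        refine mul_le_mul_of_nonneg_left (key3.trans ?_) (by norm_num)
        have := aa_pos (k + 2)
        gcongr
    _ < RR (k + 1) := by
        rw [RR, lt_div_iff₀ (by positivity)]
        have e6 : 2 * (aa (k + 2) * (4 * D * (1 / D ^ (9 * m)))) * (dd (k + 1 + 1) : ℝ) ^ 50 =
            aa (k + 2) * ((8 * D * (dd (k + 2) : ℝ) ^ 50) / D ^ (9 * m)) := by ring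
        rw [e6]
        have h7 : (8 * D * (dd (k + 2) : ℝ) ^ 50) / D ^ (9 * m) < 1 := by
          rw [div_lt_one hpos2]; exact key4
        have := aa_pos (k + 2)
        nlinarith

/-- The ratio `F(z)/F(c)` from below. -/
theorem ratio_lower {k : ℕ} {z : ℂ} (hz : bb k ≤ ‖z‖) :
    ((‖z‖ - bb k) / (aa k + bb k)) ^ dd k ≤ ‖(FF k).eval z / (FF k).eval (cc k)‖ := by
  have g := good k
  have h1 := eval_lower (FF k) g.card (fun x hx => g.hb x hx) hz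
  have h2 := eval_upper (FF k) g.card (fun x hx => g.hb x hx) (cc k)
  rw [norm_cc] at h2
  have h3 : 0 < ‖(FF k).eval (cc k)‖ := norm_pos_iff.2 g.F_ne
  have h4 := g.hb0
  have h5 := aa_pos k
  rw [norm_div, le_div_iff₀ h3, div_pow]
  have hL : 0 ≤ (‖z‖ - bb k) ^ dd k := pow_nonneg (by linarith) _
  have hp : 0 < (aa k + bb k) ^ dd k := by positivity
  calc (‖z‖ - bb k) ^ dd k / (aa k + bb k) ^ dd k * ‖(FF k).eval (cc k)‖
      ≤ (‖z‖ - bb k) ^ dd k / (aa k + bb k) ^ dd k *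
        (‖(FF k).leadingCoeff‖ * (aa k + bb k) ^ dd k) := by gcongr
    _ = ‖(FF k).leadingCoeff‖ * (‖z‖ - bb k) ^ dd k := by field_simp
    _ ≤ _ := h1

theorem norm_ddc (k : ℕ) : ‖(dd k : ℂ) ^ 4‖ = (dd k : ℝ) ^ 4 := by
  rw [norm_pow, Complex.norm_natCast]

theorem bb_small (k : ℕ) : bb k ≤ aa k / 160000 := (good k).b_small

theorem bb_nonneg (k : ℕ) : 0 ≤ bb k := (good k).hb0

/-- Lower bound in the annulus. -/
theorem est_annulus {k : ℕ} {z : ℂ} (hz : 2 * aa k ≤ ‖z‖) (hz2 : ‖z‖ ≤ RR k) :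
    2 * aa (k + 1) * (‖z‖ / aa k) ^ (10 * dd k) ≤ ‖ff z‖ := by
  have hap := aa_pos k
  have hD := dd_real k
  have hc := cc_ne k
  set ζ : ℂ := z / cc k - 1 with hζ
  have hzζ : z = cc k * (1 + ζ) := by rw [hζ]; field_simp; ring
  have hζn : ‖z‖ / (2 * aa k) ≤ ‖ζ‖ := by
    have h1 := norm_sub_norm_le (z / cc k) 1
    rw [norm_one, norm_div, norm_cc] at h1
    have h2 : ‖z‖ / (2 * aa k) = ‖z‖ / aa k - ‖z‖ / (2 * aa k) := by field_simp; ring
    have h3 : 1 ≤ ‖z‖ / (2 * aa k) := by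
      rw [le_div_iff₀ (by positivity)]; linarith
    linarith
  have h1ζ : 1 ≤ ‖ζ‖ := by
    refine le_trans ?_ hζn
    rw [le_div_iff₀ (by positivity)]; linarith
  -- the three factors
  have f1 : 1 ≤ ‖(FF k).eval z / (FF k).eval (cc k)‖ := by
    have hb := bb_small k
    refine le_trans ?_ (ratio_lower (by linarith))
    apply one_le_pow₀
    rw [le_div_iff₀ (by have := bb_nonneg k; linarith)]
    linarith
  have f2 : 8 ≤ ‖1 - al (FF k) (cc k) * cc k * ζ‖ := by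
    have h1 := norm_sub_norm_le (al (FF k) (cc k) * cc k * ζ) 1
    rw [norm_one, norm_sub_rev, norm_mul] at h1
    have h2 : (d : ℕ) → d = dd k → (100 : ℝ) ≤ ‖al (FF k) (cc k) * cc k‖ := by
      intro d hd
      have h3 := (good k).al_near
      have h4 : ‖((dd k : ℕ) : ℂ)‖ = dd k := by simp
      have h5 := norm_sub_norm_le ((dd k : ℕ) : ℂ) (al (FF k) (cc k) * cc k)
      rw [h4, norm_sub_rev] at h5
      linarith
    have h3 := h2 _ rfl
    nlinarith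
  have f3 : (‖z‖ / aa k) ^ (10 * dd k) ≤ ‖1 + ((dd k : ℂ) ^ 4 * ζ) ^ (10 * dd k)‖ := by
    have h1 := norm_sub_norm_le (((dd k : ℂ) ^ 4 * ζ) ^ (10 * dd k)) (-1)
    rw [norm_neg, norm_one, sub_neg_eq_add, add_comm, norm_pow, norm_mul, norm_ddc] at h1
    refine le_trans ?_ h1
    have h2 : 2 * (‖z‖ / aa k) ≤ (dd k : ℝ) ^ 4 * ‖ζ‖ := by
      have h3 : (4 : ℝ) ≤ (dd k : ℝ) ^ 4 := by
        have : (dd k : ℝ) ^ 1 ≤ (dd k : ℝ) ^ 4 := pow_le_pow_right₀ (by linarith) (by norm_num)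
        rw [pow_one] at this; linarith
      have h4 : ‖z‖ / aa k = 2 * (‖z‖ / (2 * aa k)) := by field_simp
      rw [h4]
      nlinarith [norm_nonneg ζ]
    have h5 : 1 ≤ ‖z‖ / aa k := by rw [le_div_iff₀ hap]; linarith
    have h6 : (1 : ℝ) ≤ (‖z‖ / aa k) ^ (10 * dd k) := one_le_pow₀ h5
    have h7 : (2 * (‖z‖ / aa k)) ^ (10 * dd k) ≤ ((dd k : ℝ) ^ 4 * ‖ζ‖) ^ (10 * dd k) := by
      gcongr
    rw [mul_pow] at h7
    have h8 : (2 : ℝ) ≤ 2 ^ (10 * dd k) := le_self_pow₀ (by norm_num) (by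
      have := (good k).hd; omega)
    nlinarith
  have hF : 8 * aa (k + 1) * (‖z‖ / aa k) ^ (10 * dd k) ≤ ‖(FF (k + 1)).eval z‖ := by
    have hf := formula k ζ
    rw [← hzζ] at hf
    rw [hf, norm_mul, norm_mul, norm_mul, norm_cc]
    have hap' := aa_pos (k + 1)
    have h9 : 0 ≤ (‖z‖ / aa k) ^ (10 * dd k) := by positivity
    calc 8 * aa (k + 1) * (‖z‖ / aa k) ^ (10 * dd k) =
        aa (k + 1) * (1 * 8 * (‖z‖ / aa k) ^ (10 * dd k)) := by ring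
      _ ≤ _ := by gcongr
  have h := ff_lower hz2 hF
  have h10 : 0 ≤ aa (k + 1) * (‖z‖ / aa k) ^ (10 * dd k) := by
    have := aa_pos (k + 1); positivity
  nlinarith

/-- Near `c`. -/
theorem est_near {k : ℕ} {ζ : ℂ} (hζ : ‖ζ‖ ≤ 4 / (dd k : ℝ) ^ 4) :
    ∃ E : ℂ, ff (cc k * (1 + ζ)) =
      cc (k + 1) * ((1 + ((dd k : ℂ) ^ 4 * ζ) ^ (10 * dd k)) * (1 + E)) ∧
      ‖E‖ ≤ 1 / (25 * (dd (k + 1) : ℝ) ^ 4) := by
  have hap := aa_pos k
  have hD := dd_real k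
  have hDp := dd_pos k
  have hD' := dd_pos (k + 1)
  have g := good k
  have hD4 : (10000 : ℝ) ≤ (dd k : ℝ) ^ 4 := by
    have : (dd k : ℝ) ^ 1 ≤ (dd k : ℝ) ^ 4 := pow_le_pow_right₀ (by linarith) (by norm_num)
    rw [pow_one] at this; linarith
  have hζ1 : ‖ζ‖ ≤ 1 := hζ.trans (by rw [div_le_one (by positivity)]; linarith)
  have hzR : ‖cc k * (1 + ζ)‖ ≤ RR k := by
    rw [norm_mul, norm_cc]
    have h1 := norm_add_le (1 : ℂ) ζ
    rw [norm_one] at h1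
    have h2 := ten_le_RR k
    nlinarith
  obtain ⟨T, hT1, hT2⟩ := tail' hzR
  -- expansion of F
  have hexp := eval_expand (FF k) g.card (fun x hx => g.hb x hx) (c := cc k) g.b_lt
    (cc k * (1 + ζ)) (y := 5 / (dd k : ℝ) ^ 3) (by
      have e1 : cc k * (1 + ζ) - cc k = cc k * ζ := by ring
      rw [e1, norm_mul, norm_cc]
      have hb := bb_small k
      have hcb : 0 < aa k - bb k := by linarith
      have h2 : aa k * ‖ζ‖ / (aa k - bb k) ≤ 5 / (dd k : ℝ) ^ 4 := by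
        rw [div_le_div_iff₀ hcb (by positivity)]
        rw [le_div_iff₀ (by positivity)] at hζ
        nlinarith
      calc (dd k : ℝ) * (aa k * ‖ζ‖ / (aa k - bb k)) ≤ dd k * (5 / (dd k : ℝ) ^ 4) := by gcongr
        _ = 5 / (dd k : ℝ) ^ 3 := by field_simp) (by
      rw [div_le_one (by positivity)]
      have : (dd k : ℝ) ^ 1 ≤ (dd k : ℝ) ^ 3 := pow_le_pow_right₀ (by linarith) (by norm_num)
      rw [pow_one] at this; linarith)
  obtain ⟨e, he1, he2⟩ := hexp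
  have e1 : cc k * (1 + ζ) - cc k = cc k * ζ := by ring
  rw [e1, ← mul_assoc] at he1
  set t : ℂ := al (FF k) (cc k) * cc k * ζ with ht
  have htn : ‖t‖ ≤ 5 / (dd k : ℝ) ^ 3 := by
    rw [ht, norm_mul]
    have h1 := g.al_upper
    calc ‖al (FF k) (cc k) * cc k‖ * ‖ζ‖ ≤ (dd k + 1 / 100) * (4 / (dd k : ℝ) ^ 4) := by gcongr
      _ ≤ (5 / 4 * dd k) * (4 / (dd k : ℝ) ^ 4) := by gcongr; linarith
      _ = 5 / (dd k : ℝ) ^ 3 := by field_simp
  set q : ℝ := 5 / (dd k : ℝ) ^ 3 with hq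
  have hq0 : 0 ≤ q := by positivity
  have hq1 : q ≤ 1 := by
    rw [hq, div_le_one (by positivity)]
    have : (dd k : ℝ) ^ 1 ≤ (dd k : ℝ) ^ 3 := pow_le_pow_right₀ (by linarith) (by norm_num)
    rw [pow_one] at this; linarith
  set E1 : ℂ := -t ^ 2 + e * (1 - t) with hE1
  have hE1n : ‖E1‖ ≤ 1 / (50 * (dd (k + 1) : ℝ) ^ 4) := by
    have h1 : ‖E1‖ ≤ 3 * q ^ 2 := by
      rw [hE1]
      calc ‖-t ^ 2 + e * (1 - t)‖ ≤ ‖t‖ ^ 2 + ‖e‖ * (1 + ‖t‖) := by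
            refine (norm_add_le _ _).trans ?_
            rw [norm_neg, norm_pow, norm_mul e (1 - t)]
            have := norm_sub_le (1 : ℂ) t
            rw [norm_one] at this
            gcongr
        _ ≤ q ^ 2 + q ^ 2 * (1 + 1) := by
            have : ‖t‖ ≤ 1 := htn.trans hq1
            gcongr
        _ = 3 * q ^ 2 := by ring
    refine h1.trans ?_
    have e2 : 3 * q ^ 2 = 75 / (dd k : ℝ) ^ 6 := by rw [hq]; field_simp; norm_num
    rw [e2, div_le_div_iff₀ (by positivity) (by positivity)]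
    have h3 := dd_succ_le k
    calc 75 * (50 * (dd (k + 1) : ℝ) ^ 4) ≤ 75 * (50 * (12 * dd k) ^ 4) := by gcongr
      _ = 77760000 * (dd k : ℝ) ^ 4 := by ring
      _ ≤ (dd k : ℝ) ^ 2 * (dd k : ℝ) ^ 4 := by
          gcongr
          nlinarith
      _ = 1 * (dd k : ℝ) ^ 6 := by ring
  refine ⟨(1 + E1) * (1 + T) - 1, ?_, ?_⟩
  · rw [hT1, formula k ζ, he1]
    have := g.F_ne
    field_simp
    rw [hE1]
    ring
  · have e3 : (1 + E1) * (1 + T) - 1 = E1 + T + E1 * T := by ring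
    rw [e3]
    have h5 := T_half hT2
    set s : ℝ := 1 / (dd (k + 1) : ℝ) ^ 4 with hs
    have e4 : 1 / (50 * (dd (k + 1) : ℝ) ^ 4) = s / 50 := by rw [hs]; field_simp
    have e5 : 1 / (100 * (dd (k + 1) : ℝ) ^ 4) = s / 100 := by rw [hs]; field_simp
    have e6 : 1 / (25 * (dd (k + 1) : ℝ) ^ 4) = s / 25 := by rw [hs]; field_simp
    rw [e4] at hE1n
    rw [e5] at hT2
    rw [e6]
    have hs0 : 0 ≤ s := by positivity
    calc ‖E1 + T + E1 * T‖ ≤ ‖E1‖ + ‖T‖ + ‖E1‖ * ‖T‖ := by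
          refine (norm_add_le _ _).trans ?_
          rw [norm_mul]
          gcongr
          exact norm_add_le _ _
      _ ≤ s / 50 + s / 100 + s / 50 * (1 / 100) := by gcongr
      _ ≤ s / 25 := by linarith

/-- In the sector. -/
theorem est_sector {k : ℕ} {ζ : ℂ} (h1 : 2 / (dd k : ℝ) ^ 4 ≤ ‖ζ‖) (h2 : ‖ζ‖ ≤ 5)
    (h3 : |ζ.re| ≤ ζ.im) : 2 * aa (k + 1) < ‖ff (cc k * (1 + ζ))‖ := by
  have hap := aa_pos k
  have hD := dd_real k
  have hDp := dd_pos k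
  have g := good k
  have hzR : ‖cc k * (1 + ζ)‖ ≤ RR k := by
    rw [norm_mul, norm_cc]
    have h1 := norm_add_le (1 : ℂ) ζ
    rw [norm_one] at h1
    have h2 := ten_le_RR k
    nlinarith
  have hsq : ∀ t : ℝ, 1 / 2 ≤ (1 + t * ζ.re) ^ 2 + (t * ζ.im) ^ 2 := by
    intro t
    have h4 : ζ.re ^ 2 ≤ ζ.im ^ 2 := sq_le_sq' (by linarith [neg_abs_le ζ.re]) (by
      linarith [le_abs_self ζ.re])
    nlinarith [sq_nonneg (1 + 2 * t * ζ.re), sq_nonneg t, mul_le_mul_of_nonneg_left h4 (sq_nonneg t)]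
  have hnorm : ∀ t : ℝ, 7 / 10 ≤ ‖1 + (t : ℂ) * ζ‖ := by
    intro t
    have h5 := hsq t
    have h6 : ‖1 + (t : ℂ) * ζ‖ ^ 2 = (1 + t * ζ.re) ^ 2 + (t * ζ.im) ^ 2 := by
      rw [Complex.sq_norm, Complex.normSq_apply]
      simp
      ring
    nlinarith [norm_nonneg (1 + (t : ℂ) * ζ)]
  have f1 : (1 / 2) ^ dd k ≤ ‖(FF k).eval (cc k * (1 + ζ)) / (FF k).eval (cc k)‖ := by
    have hb := bb_small k
    have hb0 := bb_nonneg k
    have h6 := hnorm 1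
    rw [Complex.ofReal_one, one_mul] at h6
    have h7 : 7 / 10 * aa k ≤ ‖cc k * (1 + ζ)‖ := by
      rw [norm_mul, norm_cc]; nlinarith
    refine le_trans ?_ (ratio_lower (by linarith))
    apply pow_le_pow_left₀ (by norm_num)
    rw [le_div_iff₀ (by linarith)]
    linarith
  have f2 : 1 / 2 ≤ ‖1 - al (FF k) (cc k) * cc k * ζ‖ := by
    have h6 := hnorm (-(dd k : ℝ))
    have h7 := g.al_near
    have e : 1 - al (FF k) (cc k) * cc k * ζ =
        (1 + ((-(dd k : ℝ) : ℝ) : ℂ) * ζ) - (al (FF k) (cc k) * cc k - dd k) * ζ := by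
      push_cast; ring
    rw [e]
    have h8 := norm_sub_norm_le (1 + ((-(dd k : ℝ) : ℝ) : ℂ) * ζ)
      ((al (FF k) (cc k) * cc k - dd k) * ζ)
    rw [norm_mul] at h8
    have h9 : ‖al (FF k) (cc k) * cc k - dd k‖ * ‖ζ‖ ≤ 1 / 100 * 5 := by gcongr
    linarith
  have f3 : 2 ^ (9 * dd k) ≤ ‖1 + ((dd k : ℂ) ^ 4 * ζ) ^ (10 * dd k)‖ := by
    have h1' := norm_sub_norm_le (((dd k : ℂ) ^ 4 * ζ) ^ (10 * dd k)) (-1)
    rw [norm_neg, norm_one, sub_neg_eq_add, add_comm, norm_pow, norm_mul, norm_ddc] at h1'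
    refine le_trans ?_ h1'
    have h4 : 2 ≤ (dd k : ℝ) ^ 4 * ‖ζ‖ := by
      rw [div_le_iff₀ (by positivity)] at h1
      linarith
    have h5 : (2 : ℝ) ^ (10 * dd k) ≤ ((dd k : ℝ) ^ 4 * ‖ζ‖) ^ (10 * dd k) := by gcongr
    have h6 : (2 : ℝ) ^ (10 * dd k) = 2 ^ (9 * dd k) * 2 ^ dd k := by rw [← pow_add]; ring_nf
    have h7 : (2 : ℝ) ≤ 2 ^ dd k := le_self_pow₀ (by norm_num) (by have := g.hd; omega)
    have h8 : (1 : ℝ) ≤ 2 ^ (9 * dd k) := one_le_pow₀ (by norm_num)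
    nlinarith
  have hF : 4 * aa (k + 1) ≤ ‖(FF (k + 1)).eval (cc k * (1 + ζ))‖ := by
    rw [formula k ζ, norm_mul, norm_mul, norm_mul, norm_cc]
    have hap' := aa_pos (k + 1)
    have h9 : 4 ≤ (1 / 2 : ℝ) ^ dd k * (1 / 2) * 2 ^ (9 * dd k) := by
      have e1 : (1 / 2 : ℝ) ^ dd k * (1 / 2) * 2 ^ (9 * dd k) =
          (1 / 2) * (((1 / 2 : ℝ) ^ dd k * 2 ^ dd k) * 2 ^ (8 * dd k)) := by
        have : (2 : ℝ) ^ (9 * dd k) = 2 ^ dd k * 2 ^ (8 * dd k) := by rw [← pow_add]; ring_nf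
        rw [this]; ring
      rw [e1, ← mul_pow]
      norm_num
      have h10 : (2 : ℝ) ^ 3 ≤ 2 ^ (8 * dd k) := pow_le_pow_right₀ (by norm_num) (by
        have := g.hd; omega)
      linarith
    calc 4 * aa (k + 1) = aa (k + 1) * 4 := by ring
      _ ≤ aa (k + 1) * ((1 / 2 : ℝ) ^ dd k * (1 / 2) * 2 ^ (9 * dd k)) := by gcongr
      _ ≤ _ := by gcongr
  have h := ff_lower hzR hF
  have := aa_pos (k + 1)
  linarith

end Pool.Agent.W723.MC
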