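import Pool.Agent.W723.MC.Est
import Pool.Agent.W723.MC.Abs

/-!
The entire function `ff` has a multiply connected wandering domain with a complementary component
of type 2.
-/

set_option autoImplicit false

open Filter Topology Metric Set

namespace Pool.Agent.W723.MC

open Pool.Agent.H384R2.Fatou

/-- big annulus -/
def Bs (k : ℕ) : Set ℂ := {z | 2 * aa k < ‖z‖ ∧ ‖z‖ < RR k}

/-- small annulus around `c` -/
def As (k : ℕ) : Set ℂ :=
  {z | ∃ ζ : ℂ, z = cc k * (1 + ζ) ∧ 2 / (dd k : ℝ) ^ 4 ≤ ‖ζ‖ ∧ ‖ζ‖ ≤ 4 / (dd k : ℝ) ^ 4}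

/-- sector -/
def Ss (k : ℕ) : Set ℂ :=
  {z | ∃ ζ : ℂ, z = cc k * (1 + ζ) ∧ 2 / (dd k : ℝ) ^ 4 ≤ ‖ζ‖ ∧ ‖ζ‖ ≤ 5 ∧ |ζ.re| ≤ ζ.im}

def Gs (k : ℕ) : Set ℂ := (As k ∪ Ss k) ∪ Bs k

noncomputable def pp (k : ℕ) : ℂ := cc k * (1 + 4 * Complex.I)

theorem D4_ge (k : ℕ) : (10000 : ℝ) ≤ (dd k : ℝ) ^ 4 := by
  have hD := dd_real k
  have : (dd k : ℝ) ^ 1 ≤ (dd k : ℝ) ^ 4 := pow_le_pow_right₀ (by linarith) (by norm_num)
  rw [pow_one] at this; linarith

theorem isPreconnected_ann {s : Set ℝ} (hs : IsPreconnected s) (g : ℂ → ℂ) (hg : Continuous g)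
    {T : Set ℂ} (hT : IsPreconnected T) :
    IsPreconnected {z | ∃ t ∈ s, ∃ v ∈ T, z = g (t * v)} := by
  have h1 : IsPreconnected (s ×ˢ T) := hs.prod hT
  have h2 := h1.image (fun q : ℝ × ℂ => g (q.1 * q.2)) (by
    apply Continuous.continuousOn
    exact hg.comp ((Complex.continuous_ofReal.comp continuous_fst).mul continuous_snd))
  convert h2 using 1
  ext z
  simp only [mem_ofPred_eq, mem_image, mem_prod, Prod.exists]
  constructor
  · rintro ⟨t, ht, v, hv, rfl⟩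
    exact ⟨t, v, ⟨ht, hv⟩, rfl⟩
  · rintro ⟨t, v, ⟨ht, hv⟩, rfl⟩
    exact ⟨t, ht, v, hv, rfl⟩

theorem isPreconnected_unit : IsPreconnected (sphere (0 : ℂ) 1) :=
  isPreconnected_sphere (by rw [Complex.rank_real_complex]; norm_num) 0 1

/-- the arc of directions -/
def Arc : Set ℂ := {v | ‖v‖ = 1 ∧ |v.re| ≤ v.im}

theorem isPreconnected_arc : IsPreconnected Arc := by
  have h2 := (isPreconnected_Icc (a := (-1 : ℝ)) (b := 1)).image
    (fun s : ℝ => ((s : ℂ) + Complex.I) / (‖(s : ℂ) + Complex.I‖ : ℂ)) (by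
    apply Continuous.continuousOn
    apply Continuous.div
    · fun_prop
    · fun_prop
    · intro s h
      rw [Complex.ofReal_eq_zero, norm_eq_zero] at h
      have := congrArg Complex.im h
      simp at this)
  convert h2 using 1
  ext v
  simp only [Arc, mem_ofPred_eq, mem_image, mem_Icc]
  constructor
  · rintro ⟨h1, h3⟩
    have him : 0 < v.im := by
      by_contra hcon
      push Not at hcon
      have h4 : |v.re| ≤ 0 := by linarith
      have h5 : v.re = 0 := abs_nonpos_iff.1 h4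
      have h6 : v.im = 0 := by
        have := abs_nonneg v.re
        linarith
      have : v = 0 := Complex.ext h5 h6
      rw [this, norm_zero] at h1
      norm_num at h1
    have h4 := abs_le.1 h3
    refine ⟨v.re / v.im, ⟨?_, ?_⟩, ?_⟩
    · rw [le_div_iff₀ him]; linarith
    · rw [div_le_iff₀ him]; linarith
    · have e : (((v.re / v.im : ℝ) : ℂ) + Complex.I) = (((v.im)⁻¹ : ℝ) : ℂ) * v := by
        apply Complex.ext
        · simp; field_simp
        · simp; field_simp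
      rw [e, norm_mul, h1, mul_one, Complex.norm_real, Real.norm_eq_abs, abs_of_pos (by positivity)]
      have : (((v.im)⁻¹ : ℝ) : ℂ) ≠ 0 := by
        rw [Complex.ofReal_ne_zero]; positivity
      exact mul_div_cancel_left₀ _ this
  · rintro ⟨s, ⟨hs1, hs2⟩, rfl⟩
    have hn : 0 < ‖(s : ℂ) + Complex.I‖ := by
      rw [norm_pos_iff]
      intro h
      have := congrArg Complex.im h
      simp at this
    constructor
    · rw [norm_div, Complex.norm_real, norm_norm, div_self hn.ne']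
    · rw [Complex.div_ofReal_re, Complex.div_ofReal_im, abs_div, abs_of_pos hn]
      gcongr
      simp
      exact abs_le.2 ⟨hs1, hs2⟩

theorem As_preconnected (k : ℕ) : IsPreconnected (As k) := by
  have hD := D4_ge k
  have h := isPreconnected_ann (isPreconnected_Icc (a := 2 / (dd k : ℝ) ^ 4)
    (b := 4 / (dd k : ℝ) ^ 4)) (fun w => cc k * (1 + w)) (by fun_prop) isPreconnected_unit
  convert h using 1
  ext z
  simp only [As, mem_ofPred_eq, mem_Icc, mem_sphere_zero_iff_norm]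
  constructor
  · rintro ⟨ζ, rfl, h1, h2⟩
    have h0 : 0 < ‖ζ‖ := lt_of_lt_of_le (by positivity) h1
    refine ⟨‖ζ‖, ⟨h1, h2⟩, ζ / ‖ζ‖, ?_, ?_⟩
    · rw [norm_div, Complex.norm_real, norm_norm, div_self h0.ne']
    · have : (‖ζ‖ : ℂ) ≠ 0 := by rw [Complex.ofReal_ne_zero]; exact h0.ne'
      field_simp
  · rintro ⟨t, ⟨h1, h2⟩, v, hv, rfl⟩
    have ht : 0 ≤ t := le_trans (by positivity) h1
    refine ⟨t * v, rfl, ?_, ?_⟩ <;>
    · rw [norm_mul, hv, Complex.norm_real, Real.norm_eq_abs, abs_of_nonneg ht, mul_one]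
      assumption

theorem Ss_preconnected (k : ℕ) : IsPreconnected (Ss k) := by
  have hD := D4_ge k
  have h := isPreconnected_ann (isPreconnected_Icc (a := 2 / (dd k : ℝ) ^ 4)
    (b := 5)) (fun w => cc k * (1 + w)) (by fun_prop) isPreconnected_arc
  convert h using 1
  ext z
  simp only [Ss, Arc, mem_ofPred_eq, mem_Icc]
  constructor
  · rintro ⟨ζ, rfl, h1, h2, h3⟩
    have h0 : 0 < ‖ζ‖ := lt_of_lt_of_le (by positivity) h1
    refine ⟨‖ζ‖, ⟨h1, h2⟩, ζ / ‖ζ‖, ⟨?_, ?_⟩, ?_⟩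
    · rw [norm_div, Complex.norm_real, norm_norm, div_self h0.ne']
    · rw [Complex.div_ofReal_re, Complex.div_ofReal_im, abs_div, abs_of_pos h0]
      gcongr
    · have : (‖ζ‖ : ℂ) ≠ 0 := by rw [Complex.ofReal_ne_zero]; exact h0.ne'
      field_simp
  · rintro ⟨t, ⟨h1, h2⟩, v, ⟨hv, hv2⟩, rfl⟩
    have ht : 0 ≤ t := le_trans (by positivity) h1
    refine ⟨t * v, rfl, ?_, ?_, ?_⟩
    · rw [norm_mul, hv, Complex.norm_real, Real.norm_eq_abs, abs_of_nonneg ht, mul_one]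
      assumption
    · rw [norm_mul, hv, Complex.norm_real, Real.norm_eq_abs, abs_of_nonneg ht, mul_one]
      assumption
    · rw [Complex.re_ofReal_mul, Complex.im_ofReal_mul, abs_mul, abs_of_nonneg ht]
      gcongr

theorem Bs_preconnected (k : ℕ) : IsPreconnected (Bs k) := by
  have ha := aa_pos k
  have h := isPreconnected_ann (isPreconnected_Ioo (a := 2 * aa k)
    (b := RR k)) (fun w => w) continuous_id isPreconnected_unit
  convert h using 1
  ext z
  simp only [Bs, mem_ofPred_eq, mem_Ioo, mem_sphere_zero_iff_norm]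
  constructor
  · rintro ⟨h1, h2⟩
    have h0 : 0 < ‖z‖ := lt_trans (by positivity) h1
    refine ⟨‖z‖, ⟨h1, h2⟩, z / ‖z‖, ?_, ?_⟩
    · rw [norm_div, Complex.norm_real, norm_norm, div_self h0.ne']
    · have : (‖z‖ : ℂ) ≠ 0 := by rw [Complex.ofReal_ne_zero]; exact h0.ne'
      field_simp
  · rintro ⟨t, ⟨h1, h2⟩, v, hv, rfl⟩
    have ht : 0 ≤ t := le_trans (by positivity) h1.le
    rw [norm_mul, hv, Complex.norm_real, Real.norm_eq_abs, abs_of_nonneg ht, mul_one]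
    exact ⟨h1, h2⟩

theorem norm_pp (k : ℕ) : 4 * aa k < ‖pp k‖ ∧ ‖pp k‖ ≤ 5 * aa k := by
  have ha := aa_pos k
  rw [pp, norm_mul, norm_cc]
  have h1 : ‖(1 + 4 * Complex.I)‖ ^ 2 = 17 := by
    rw [Complex.sq_norm, Complex.normSq_apply]; simp; norm_num
  have h0 := norm_nonneg (1 + 4 * Complex.I)
  have h2 : 4 < ‖(1 + 4 * Complex.I)‖ := by nlinarith
  have h3 : ‖(1 + 4 * Complex.I)‖ ≤ 5 := by nlinarith
  constructor <;> nlinarith

theorem pp_Bs (k : ℕ) : pp k ∈ Bs k := by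
  have h := norm_pp k
  have ha := aa_pos k
  have := ten_le_RR k
  exact ⟨by linarith, by linarith⟩

theorem pp_Ss (k : ℕ) : pp k ∈ Ss k := by
  have hD := D4_ge k
  have h4 : ‖(4 * Complex.I)‖ = 4 := by simp
  refine ⟨4 * Complex.I, rfl, ?_, ?_, ?_⟩
  · rw [h4, div_le_iff₀ (by positivity)]; linarith
  · rw [h4]; norm_num
  · simp

theorem Gs_preconnected (k : ℕ) : IsPreconnected (Gs k) := by
  have hD := D4_ge k
  have h1 : IsPreconnected (As k ∪ Ss k) := by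
    have hn : ‖(((2 / (dd k : ℝ) ^ 4 : ℝ) : ℂ) * Complex.I)‖ = 2 / (dd k : ℝ) ^ 4 := by
      rw [norm_mul, Complex.norm_I, mul_one, Complex.norm_real, Real.norm_eq_abs,
        abs_of_nonneg (by positivity)]
    refine (As_preconnected k).union (cc k * (1 + ((2 / (dd k : ℝ) ^ 4 : ℝ) : ℂ) * Complex.I))
      ⟨_, rfl, hn.ge, ?_⟩ ⟨_, rfl, hn.ge, ?_, ?_⟩ (Ss_preconnected k)
    · rw [hn]; gcongr; norm_num
    · rw [hn, div_le_iff₀ (by positivity)]; linarith
    · rw [Complex.re_ofReal_mul, Complex.im_ofReal_mul, Complex.I_re, Complex.I_im, mul_zero,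
        abs_zero, mul_one]
      positivity
  exact h1.union (pp k) (Or.inr (pp_Ss k)) (pp_Bs k) (Bs_preconnected k)

theorem norm_w (k : ℕ) (ζ : ℂ) : ‖((dd k : ℂ) ^ 4 * ζ) ^ (10 * dd k)‖ =
    ((dd k : ℝ) ^ 4 * ‖ζ‖) ^ (10 * dd k) := by
  rw [norm_pow, norm_mul, norm_ddc]

theorem Gs_maps (k : ℕ) : MapsTo ff (Gs k) (Bs (k + 1)) := by
  have ha := aa_pos k
  have ha' := aa_pos (k + 1)
  have hD := D4_ge k
  have hR := ten_le_RR k
  have hup : ∀ ζ : ℂ, ‖ζ‖ ≤ 5 → ‖cc k * (1 + ζ)‖ ≤ RR k := by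
    intro ζ hζ
    rw [norm_mul, norm_cc]
    have h1 := norm_add_le (1 : ℂ) ζ
    rw [norm_one] at h1
    nlinarith
  rintro z ((⟨ζ, rfl, h1, h2⟩ | ⟨ζ, rfl, h1, h2, h3⟩) | ⟨h1, h2⟩)
  · have h5 : ‖ζ‖ ≤ 5 := h2.trans (by rw [div_le_iff₀ (by positivity)]; linarith)
    refine ⟨?_, est_upper (hup ζ h5)⟩
    obtain ⟨E, hE1, hE2⟩ := est_near h2
    rw [hE1, norm_mul, norm_mul, norm_cc]
    have hE3 : ‖E‖ ≤ 1 / 2 := by
      refine hE2.trans ?_
      have := D4_ge (k + 1)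
      exact div_le_div_of_nonneg_left (by norm_num) (by norm_num) (by linarith)
    have h6 : 1 / 2 ≤ ‖1 + E‖ := by
      have := norm_sub_norm_le (1 : ℂ) (-E)
      rw [norm_one, norm_neg, sub_neg_eq_add] at this
      linarith
    have h7 : 7 ≤ ‖1 + ((dd k : ℂ) ^ 4 * ζ) ^ (10 * dd k)‖ := by
      have h1' := norm_sub_norm_le (((dd k : ℂ) ^ 4 * ζ) ^ (10 * dd k)) (-1)
      rw [norm_neg, norm_one, sub_neg_eq_add, add_comm _ (1 : ℂ), norm_w] at h1'
      have h4 : 2 ≤ (dd k : ℝ) ^ 4 * ‖ζ‖ := by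
        rw [div_le_iff₀ (by positivity)] at h1
        linarith
      have h5 : (2 : ℝ) ^ (10 * dd k) ≤ ((dd k : ℝ) ^ 4 * ‖ζ‖) ^ (10 * dd k) := by gcongr
      have h8 : (2 : ℝ) ^ 3 ≤ 2 ^ (10 * dd k) := pow_le_pow_right₀ (by norm_num) (by
        have := (good k).hd; omega)
      linarith
    have h8 : 7 * (1 / 2) ≤ ‖1 + ((dd k : ℂ) ^ 4 * ζ) ^ (10 * dd k)‖ * ‖1 + E‖ := by gcongr
    nlinarith
  · exact ⟨est_sector h1 h2 h3, est_upper (hup ζ h2)⟩
  · refine ⟨?_, est_upper h2.le⟩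
    have h3 := est_annulus h1.le h2.le
    refine lt_of_lt_of_le ?_ h3
    have h4 : 1 < (‖z‖ / aa k) ^ (10 * dd k) := by
      apply one_lt_pow₀
      · rw [lt_div_iff₀ ha]; linarith
      · have := (good k).hd; omega
    nlinarith

/-- the radius at which `w^N` has modulus `3/D'^4` -/
theorem exists_rho (k : ℕ) : ∃ ρ : ℝ, 0 < ρ ∧ ρ < 1 ∧ ρ ^ (10 * dd k) = 3 / (dd (k + 1) : ℝ) ^ 4 := by
  have hD := D4_ge (k + 1)
  have hN : 10 * dd k ≠ 0 := by have := (good k).hd; omega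
  set s : ℝ := 3 / (dd (k + 1) : ℝ) ^ 4 with hs
  have hs0 : 0 < s := by positivity
  have hs1 : s < 1 := by rw [hs, div_lt_one (by positivity)]; linarith
  refine ⟨s ^ ((10 * dd k : ℕ) : ℝ)⁻¹, Real.rpow_pos_of_pos hs0 _, ?_, ?_⟩
  · apply Real.rpow_lt_one hs0.le hs1
    positivity
  · exact Real.rpow_inv_natCast_pow hs0.le hN

noncomputable def rho (k : ℕ) : ℝ := (exists_rho k).choose
theorem rho_pos (k : ℕ) : 0 < rho k := (exists_rho k).choose_spec.1
theorem rho_lt (k : ℕ) : rho k < 1 := (exists_rho k).choose_spec.2.1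
theorem rho_pow (k : ℕ) : rho k ^ (10 * dd k) = 3 / (dd (k + 1) : ℝ) ^ 4 :=
  (exists_rho k).choose_spec.2.2

noncomputable def Rad (k : ℕ) : ℝ := aa k * (rho k / (dd k : ℝ) ^ 4)
noncomputable def del (k : ℕ) : ℝ := aa k * (1 / (2 * (dd k : ℝ) ^ 4))

theorem exists_uk (k : ℕ) : ∃ u : ℂ, ‖u‖ = 1 ∧ u ^ (10 * dd k) = Complex.I := by
  have hN : 10 * dd k ≠ 0 := by have := (good k).hd; omega
  obtain ⟨u, hu⟩ := IsAlgClosed.exists_pow_nat_eq (Complex.I) (Nat.pos_of_ne_zero hN)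
  refine ⟨u, ?_, hu⟩
  have : ‖u‖ ^ (10 * dd k) = 1 := by rw [← norm_pow, hu, Complex.norm_I]
  exact (pow_eq_one_iff_of_nonneg (norm_nonneg _) hN).1 this

noncomputable def uk (k : ℕ) : ℂ := (exists_uk k).choose
theorem norm_uk (k : ℕ) : ‖uk k‖ = 1 := (exists_uk k).choose_spec.1
theorem uk_pow (k : ℕ) : uk k ^ (10 * dd k) = Complex.I := (exists_uk k).choose_spec.2

noncomputable def pth (k : ℕ) (t : ℝ) : ℂ := cc k * (1 + t * uk k / (dd k : ℂ) ^ 4)

def Hs (k : ℕ) : Set ℂ := sphere (cc k) (Rad k) ∪ pth k '' Icc (rho k) 2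

theorem ddc_ne (k : ℕ) : (dd k : ℂ) ^ 4 ≠ 0 := by
  have := dd_pos k
  have h : (dd k : ℂ) ≠ 0 := by
    intro h0
    have : (dd k : ℝ) = 0 := by exact_mod_cast h0
    linarith
  exact pow_ne_zero _ h

theorem Hs_preconnected (k : ℕ) : IsPreconnected (Hs k) := by
  have h1 : IsPreconnected (sphere (cc k) (Rad k)) :=
    isPreconnected_sphere (by rw [Complex.rank_real_complex]; norm_num) _ _
  have h2 : IsPreconnected (pth k '' Icc (rho k) 2) := by
    apply isPreconnected_Icc.image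
    apply Continuous.continuousOn
    unfold pth
    have := ddc_ne k
    fun_prop
  refine h1.union (pth k (rho k)) ?_ ⟨rho k, ⟨le_rfl, by linarith [rho_lt k]⟩, rfl⟩ h2
  rw [mem_sphere, dist_eq_norm, pth]
  have e : cc k * (1 + (rho k : ℂ) * uk k / (dd k : ℂ) ^ 4) - cc k =
    cc k * (rho k * uk k / (dd k : ℂ) ^ 4) := by ring
  rw [e, norm_mul, norm_div, norm_mul, norm_uk, norm_ddc, norm_cc, Complex.norm_real,
    Real.norm_eq_abs, abs_of_pos (rho_pos k), mul_one, Rad]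

/-- the value at a point of `sphere ∪ path` in terms of `w^N` -/
theorem near_val {k : ℕ} {ζ : ℂ} (hζ : ‖ζ‖ ≤ 4 / (dd k : ℝ) ^ 4) :
    ∃ ζ' : ℂ, ff (cc k * (1 + ζ)) = cc (k + 1) * (1 + ζ') ∧
      ‖ζ' - ((dd k : ℂ) ^ 4 * ζ) ^ (10 * dd k)‖ ≤ 1 / (dd (k + 1) : ℝ) ^ 4 / 25 *
        (1 + ‖((dd k : ℂ) ^ 4 * ζ) ^ (10 * dd k)‖) := by
  obtain ⟨E, hE1, hE2⟩ := est_near hζ
  set W := ((dd k : ℂ) ^ 4 * ζ) ^ (10 * dd k) with hW
  refine ⟨W + E * (1 + W), by rw [hE1]; ring, ?_⟩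
  rw [add_sub_cancel_left, norm_mul]
  have h1 : ‖1 + W‖ ≤ 1 + ‖W‖ := by
    have := norm_add_le (1 : ℂ) W
    rwa [norm_one] at this
  have h2 : ‖E‖ ≤ 1 / (dd (k + 1) : ℝ) ^ 4 / 25 := by
    refine hE2.trans (le_of_eq ?_)
    rw [div_div, mul_comm]
  gcongr

theorem s_le (k : ℕ) : 1 / (dd k : ℝ) ^ 4 ≤ 1 / 10000 :=
  div_le_div_of_nonneg_left (by norm_num) (by norm_num) (D4_ge k)

theorem zeta_of (k : ℕ) (z : ℂ) : ∃ ζ : ℂ, z = cc k * (1 + ζ) ∧ aa k * ‖ζ‖ = dist z (cc k) := by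
  have hc := cc_ne k
  refine ⟨(z - cc k) / cc k, by field_simp; ring, ?_⟩
  rw [norm_div, norm_cc, dist_eq_norm]
  have := aa_pos k
  field_simp

/-- points inside the circle of radius `Rad` -/
theorem inner_val {k : ℕ} {z : ℂ} (hz : dist z (cc k) ≤ Rad k) :
    ∃ ζ' : ℂ, ff z = cc (k + 1) * (1 + ζ') ∧ ‖ζ'‖ ≤ 4 / (dd (k + 1) : ℝ) ^ 4 ∧
      (dist z (cc k) = Rad k → 2 / (dd (k + 1) : ℝ) ^ 4 ≤ ‖ζ'‖) := by
  have ha := aa_pos k
  have hD := D4_ge k
  obtain ⟨ζ, rfl, hζ⟩ := zeta_of k z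
  have h1 : ‖ζ‖ ≤ rho k / (dd k : ℝ) ^ 4 := by
    rw [← hζ, Rad] at hz
    exact le_of_mul_le_mul_left hz ha
  have h2 : ‖ζ‖ ≤ 4 / (dd k : ℝ) ^ 4 := by
    refine h1.trans ?_
    have := rho_lt k
    gcongr
    linarith
  obtain ⟨ζ', hv, hn⟩ := near_val h2
  set s : ℝ := 1 / (dd (k + 1) : ℝ) ^ 4 with hs
  have hs0 : 0 < s := by have := dd_pos (k + 1); positivity
  have hs1 : s ≤ 1 / 10000 := s_le (k + 1)
  rw [norm_w] at hn
  have h3 : (dd k : ℝ) ^ 4 * ‖ζ‖ ≤ rho k := by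
    rw [le_div_iff₀ (by positivity)] at h1
    linarith
  have e3 : 3 / (dd (k + 1) : ℝ) ^ 4 = 3 * s := by rw [hs]; ring
  have e4 : 4 / (dd (k + 1) : ℝ) ^ 4 = 4 * s := by rw [hs]; ring
  have e2 : 2 / (dd (k + 1) : ℝ) ^ 4 = 2 * s := by rw [hs]; ring
  have h4 : ((dd k : ℝ) ^ 4 * ‖ζ‖) ^ (10 * dd k) ≤ 3 * s := by
    rw [← e3, ← rho_pow]
    gcongr
  have h0 : 0 ≤ ((dd k : ℝ) ^ 4 * ‖ζ‖) ^ (10 * dd k) := by positivity
  have h5 := norm_sub_norm_le ζ' (((dd k : ℂ) ^ 4 * ζ) ^ (10 * dd k))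
  rw [norm_w] at h5
  refine ⟨ζ', hv, ?_, ?_⟩
  · rw [e4]
    nlinarith
  · intro heq
    have h6 : ‖ζ‖ = rho k / (dd k : ℝ) ^ 4 := by
      rw [← hζ, Rad] at heq
      exact mul_left_cancel₀ ha.ne' heq
    have h7 : (dd k : ℝ) ^ 4 * ‖ζ‖ = rho k := by
      rw [h6]
      exact mul_div_cancel₀ _ (by positivity)
    rw [h7, rho_pow, e3] at hn
    have h8 := norm_sub_norm_le (((dd k : ℂ) ^ 4 * ζ) ^ (10 * dd k)) ζ'
    rw [norm_w, h7, rho_pow, e3, norm_sub_rev] at h8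
    rw [e2]
    nlinarith

theorem Hs_maps (k : ℕ) : MapsTo ff (Hs k) (Gs (k + 1)) := by
  have ha := aa_pos k
  have ha' := aa_pos (k + 1)
  have hD := D4_ge k
  rintro z (hz | ⟨t, ⟨ht1, ht2⟩, rfl⟩)
  · rw [mem_sphere] at hz
    obtain ⟨ζ', h1, h2, h3⟩ := inner_val hz.le
    rw [h1]
    exact Or.inl (Or.inl ⟨ζ', rfl, h3 hz, h2⟩)
  · have ht0 : 0 < t := lt_of_lt_of_le (rho_pos k) ht1
    set ζ : ℂ := t * uk k / (dd k : ℂ) ^ 4 with hζ
    have hζn : ‖ζ‖ = t / (dd k : ℝ) ^ 4 := by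
      rw [hζ, norm_div, norm_mul, norm_uk, norm_ddc, Complex.norm_real, Real.norm_eq_abs,
        abs_of_pos ht0, mul_one]
    have hζ4 : ‖ζ‖ ≤ 4 / (dd k : ℝ) ^ 4 := by rw [hζn]; gcongr; linarith
    obtain ⟨ζ', hv, hn⟩ := near_val hζ4
    set s : ℝ := 1 / (dd (k + 1) : ℝ) ^ 4 with hs
    have hs0 : 0 < s := by have := dd_pos (k + 1); positivity
    have hs1 : s ≤ 1 / 10000 := s_le (k + 1)
    have e3 : 3 / (dd (k + 1) : ℝ) ^ 4 = 3 * s := by rw [hs]; ring
    have e2 : 2 / (dd (k + 1) : ℝ) ^ 4 = 2 * s := by rw [hs]; ring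
    set v : ℝ := t ^ (10 * dd k) with hvdef
    have hW : ((dd k : ℂ) ^ 4 * ζ) ^ (10 * dd k) = (v : ℂ) * Complex.I := by
      have : (dd k : ℂ) ^ 4 * ζ = t * uk k := by
        rw [hζ]
        exact mul_div_cancel₀ _ (ddc_ne k)
      rw [this, mul_pow, uk_pow, hvdef]
      push_cast
      rfl
    have hv3 : 3 * s ≤ v := by
      rw [← e3, ← rho_pow, hvdef]
      have := rho_pos k
      gcongr
    have hWn : ‖(v : ℂ) * Complex.I‖ = v := by
      rw [norm_mul, Complex.norm_I, mul_one, Complex.norm_real, Real.norm_eq_abs,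
        abs_of_pos (by linarith)]
    rw [hW, hWn] at hn
    have hre : |ζ'.re| ≤ s / 25 * (1 + v) := by
      have h1 := Complex.abs_re_le_norm (ζ' - (v : ℂ) * Complex.I)
      have h2 : (ζ' - (v : ℂ) * Complex.I).re = ζ'.re := by simp
      rw [h2] at h1
      exact h1.trans hn
    have him : v - s / 25 * (1 + v) ≤ ζ'.im := by
      have h1 := Complex.abs_im_le_norm (ζ' - (v : ℂ) * Complex.I)
      have h2 : (ζ' - (v : ℂ) * Complex.I).im = ζ'.im - v := by simp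
      rw [h2] at h1
      have := (abs_le.1 (h1.trans hn)).1
      linarith
    have hsm : s / 25 * (1 + v) ≤ v / 10 := by
      have : s * v ≤ 1 / 10000 * v := by
        have : 0 ≤ v := by linarith
        gcongr
      nlinarith
    have hcone : |ζ'.re| ≤ ζ'.im := by linarith
    have hlow : 2 * s ≤ ‖ζ'‖ := by
      have := Complex.abs_im_le_norm ζ'
      have := le_abs_self ζ'.im
      linarith
    have hval : ff (pth k t) = cc (k + 1) * (1 + ζ') := by
      rw [← hv]; rfl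
    rw [hval]
    by_cases h5 : ‖ζ'‖ ≤ 5
    · exact Or.inl (Or.inr ⟨ζ', rfl, by rw [e2]; exact hlow, h5, hcone⟩)
    · push Not at h5
      right
      constructor
      · rw [norm_mul, norm_cc]
        have h1 := norm_sub_norm_le ζ' (-1)
        rw [norm_neg, norm_one, sub_neg_eq_add, add_comm _ (1 : ℂ)] at h1
        nlinarith
      · rw [← hval]
        apply est_upper
        change ‖cc k * (1 + ζ)‖ ≤ RR k
        rw [norm_mul, norm_cc]
        have h1 := norm_add_le (1 : ℂ) ζ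
        rw [norm_one] at h1
        have h2 : ‖ζ‖ ≤ 1 := hζ4.trans (by rw [div_le_one (by positivity)]; linarith)
        have := ten_le_RR k
        nlinarith

theorem Hs_meet (k : ℕ) : (Hs k ∩ Gs k).Nonempty := by
  refine ⟨pth k 2, Or.inr ⟨2, ⟨by linarith [rho_lt k], le_rfl⟩, rfl⟩, Or.inl (Or.inl
    ⟨(2 : ℝ) * uk k / (dd k : ℂ) ^ 4, rfl, ?_⟩)⟩
  have : ‖((2 : ℝ) : ℂ) * uk k / (dd k : ℂ) ^ 4‖ = 2 / (dd k : ℝ) ^ 4 := by
    rw [norm_div, norm_mul, norm_uk, norm_ddc, Complex.norm_real, Real.norm_eq_abs,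
      abs_of_pos (by norm_num), mul_one]
  rw [this]
  refine ⟨le_rfl, ?_⟩
  gcongr
  norm_num

theorem del_maps (k : ℕ) :
    MapsTo ff (ball (cc k) (del k)) (ball (cc (k + 1)) (del (k + 1))) := by
  intro z hz
  have ha := aa_pos k
  have ha' := aa_pos (k + 1)
  have hD := D4_ge k
  obtain ⟨ζ, rfl, hζ⟩ := zeta_of k z
  rw [mem_ball, ← hζ, del] at hz
  have h1 : ‖ζ‖ < 1 / (2 * (dd k : ℝ) ^ 4) := lt_of_mul_lt_mul_left hz ha.le
  have h2 : ‖ζ‖ ≤ 4 / (dd k : ℝ) ^ 4 := by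
    refine h1.le.trans ?_
    rw [div_le_div_iff₀ (by positivity) (by positivity)]
    linarith
  obtain ⟨ζ', hv, hn⟩ := near_val h2
  set s : ℝ := 1 / (dd (k + 1) : ℝ) ^ 4 with hs
  have hs0 : 0 < s := by have := dd_pos (k + 1); positivity
  have hs1 : s ≤ 1 / 10000 := s_le (k + 1)
  rw [norm_w] at hn
  have h3 : (dd k : ℝ) ^ 4 * ‖ζ‖ ≤ 1 / 2 := by
    rw [lt_div_iff₀ (by positivity)] at h1
    linarith
  have h4 : ((dd k : ℝ) ^ 4 * ‖ζ‖) ^ (10 * dd k) ≤ s / 5 := by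
    have h5 : ((dd k : ℝ) ^ 4 * ‖ζ‖) ^ (10 * dd k) ≤ (1 / 2) ^ (10 * dd k) := by gcongr
    refine h5.trans ?_
    rw [one_div, inv_pow, hs, div_div, inv_eq_one_div]
    have hdd := dd_real k
    have hdd' := dd_succ_le k
    have hdp := dd_pos (k + 1)
    apply div_le_div_of_nonneg_left (by norm_num) (by positivity)
    have h6 : (dd k : ℝ) ≤ 2 ^ dd k := by
      exact_mod_cast (Nat.lt_two_pow_self (n := dd k)).le
    calc (dd (k + 1) : ℝ) ^ 4 * 5 ≤ (12 * dd k) ^ 4 * 5 := by gcongr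
      _ = 103680 * (dd k : ℝ) ^ 4 := by ring
      _ ≤ (dd k : ℝ) ^ 6 * (dd k : ℝ) ^ 4 := by
          gcongr
          calc (103680 : ℝ) ≤ 10000 ^ 6 := by norm_num
            _ ≤ _ := by gcongr
      _ = (dd k : ℝ) ^ 10 := by ring
      _ ≤ (2 ^ dd k) ^ 10 := by gcongr
      _ = 2 ^ (10 * dd k) := by rw [← pow_mul]; ring_nf
  have h5 := norm_sub_norm_le ζ' (((dd k : ℂ) ^ 4 * ζ) ^ (10 * dd k))
  rw [norm_w] at h5
  have h6 : ‖ζ'‖ < s / 2 := by nlinarith
  rw [hv, mem_ball, dist_eq_norm, show cc (k + 1) * (1 + ζ') - cc (k + 1) = cc (k + 1) * ζ' by ring,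
    norm_mul, norm_cc, del]
  have e : 1 / (2 * (dd (k + 1) : ℝ) ^ 4) = s / 2 := by rw [hs]; ring
  rw [e]
  gcongr

theorem pp_not_mem (k : ℕ) : pp (k + 1) ∉ ff '' ball (cc k) (Rad k) := by
  rintro ⟨z, hz, hzp⟩
  obtain ⟨ζ', h1, h2, -⟩ := inner_val (mem_ball.1 hz).le
  have hD := D4_ge (k + 1)
  rw [h1, pp] at hzp
  have h3 := mul_left_cancel₀ (cc_ne (k + 1)) hzp
  have h4 : ζ' = 4 * Complex.I := add_left_cancel h3
  rw [h4] at h2
  have h5 : ‖(4 * Complex.I)‖ = 4 := by simp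
  rw [h5, le_div_iff₀ (by positivity)] at h2
  linarith

theorem half_lower {k : ℕ} {z : ℂ} {r : ℝ} (hr : r ≤ aa k / 2) (hz : z ∈ ball (cc k) r) :
    aa k / 2 ≤ ‖z‖ := by
  rw [mem_ball, dist_eq_norm, norm_sub_rev] at hz
  have := norm_sub_norm_le (cc k) z
  rw [norm_cc] at this
  linarith

theorem Rad_le (k : ℕ) : Rad k ≤ aa k / 2 := by
  have ha := aa_pos k
  have hD := D4_ge k
  have h1 := rho_lt k
  have h2 : rho k / (dd k : ℝ) ^ 4 ≤ 1 / 2 := by
    rw [div_le_div_iff₀ (by positivity) (by norm_num)]; linarith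
  rw [Rad]
  nlinarith

theorem del_le (k : ℕ) : del k ≤ aa k / 2 := by
  have ha := aa_pos k
  have hD := D4_ge k
  have h2 : 1 / (2 * (dd k : ℝ) ^ 4) ≤ 1 / 2 :=
    div_le_div_of_nonneg_left (by norm_num) (by norm_num) (by linarith)
  rw [del]
  nlinarith

theorem Bs_maps (k : ℕ) : MapsTo ff (Bs k) (Bs (k + 1)) := fun _ hz => Gs_maps k (Or.inr hz)

theorem pp_orbit (k n : ℕ) : ff^[n] (pp k) ∈ Bs (k + n) := by
  induction n with
  | zero => exact pp_Bs k
  | succ n ih => rw [Function.iterate_succ_apply']; exact Bs_maps _ ih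

theorem cc_orbit (k n : ℕ) : ff^[n] (cc k) ∈ ball (cc (k + n)) (del (k + n)) := by
  induction n with
  | zero =>
    apply mem_ball_self
    have := aa_pos k
    have := dd_pos k
    rw [add_zero, del]; positivity
  | succ n ih => rw [Function.iterate_succ_apply']; exact del_maps _ ih

theorem sep1 (k : ℕ) (C : ℝ) : ∃ᶠ n in atTop,
    C * Real.log ‖ff^[n] (cc k)‖ < Real.log ‖ff^[n] (pp k)‖ := by
  set x : ℕ → ℝ := fun n => Real.log (‖ff^[n] (pp k)‖ / aa (k + n)) with hx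
  set y : ℕ → ℝ := fun n => Real.log (aa (k + n)) with hy
  have hy0 : ∀ n, 0 < y n := fun n => Real.log_pos (by linarith [aa_one (k + n)])
  have hx0 : 0 < x 0 := by
    apply Real.log_pos
    rw [lt_div_iff₀ (aa_pos _)]
    have := (norm_pp k).1
    simp only [Function.iterate_zero, id_eq, add_zero]
    linarith [aa_pos k]
  have hxs : ∀ n, 10 * (dd (k + n) : ℝ) * x n ≤ x (n + 1) := by
    intro n
    have h1 := pp_orbit k n
    have h2 := est_annulus h1.1.le h1.2.le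
    have ha := aa_pos (k + n)
    have ha' := aa_pos (k + n + 1)
    simp only [hx]
    rw [Function.iterate_succ_apply']
    have h3 : (‖ff^[n] (pp k)‖ / aa (k + n)) ^ (10 * dd (k + n)) ≤
        ‖ff (ff^[n] (pp k))‖ / aa (k + n + 1) := by
      rw [le_div_iff₀ ha']
      have : 0 ≤ (‖ff^[n] (pp k)‖ / aa (k + n)) ^ (10 * dd (k + n)) := by positivity
      nlinarith
    have h4 : 0 < ‖ff^[n] (pp k)‖ / aa (k + n) := by
      have : 0 < ‖ff^[n] (pp k)‖ := by linarith [h1.1]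
      positivity
    have h5 := Real.log_le_log (by positivity) h3
    rw [Real.log_pow] at h5
    push_cast at h5
    exact h5
  have hys : ∀ n, y (n + 1) ≤ 2 * (dd (k + n) : ℝ) * y n := by
    intro n
    have h1 := aa_upper (k + n)
    have h2 := aa_one (k + n)
    have h3 : aa (k + n + 1) ≤ (aa (k + n) ^ 2) ^ dd (k + n) := by
      refine h1.trans ?_
      gcongr
      nlinarith
    have h4 := Real.log_le_log (aa_pos _) h3
    rw [Real.log_pow, Real.log_pow] at h4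
    simp only [hy]
    push_cast at h4
    calc Real.log (aa (k + (n + 1))) ≤ (dd (k + n) : ℝ) * (2 * Real.log (aa (k + n))) := h4
      _ = _ := by ring
  have hmain : ∀ n, 5 ^ n * x 0 * y n ≤ x n * y 0 := by
    intro n
    induction n with
    | zero => simp
    | succ n ih =>
      have hd := dd_pos (k + n)
      calc 5 ^ (n + 1) * x 0 * y (n + 1) ≤ 5 ^ (n + 1) * x 0 * (2 * (dd (k + n) : ℝ) * y n) := by
            have := hys n
            gcongr
        _ = 10 * (dd (k + n) : ℝ) * (5 ^ n * x 0 * y n) := by ring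
        _ ≤ 10 * (dd (k + n) : ℝ) * (x n * y 0) := by gcongr
        _ = (10 * (dd (k + n) : ℝ) * x n) * y 0 := by ring
        _ ≤ x (n + 1) * y 0 := by
            have := hxs n
            have := (hy0 0).le
            gcongr
  apply Eventually.frequently
  have ht : Tendsto (fun n : ℕ => (5 : ℝ) ^ n) atTop atTop :=
    tendsto_pow_atTop_atTop_of_one_lt (by norm_num)
  filter_upwards [ht.eventually_gt_atTop (2 * |C| * y 0 / x 0)] with n hn
  have h1 := pp_orbit k n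
  have h2 := cc_orbit k n
  have ha := aa_one (k + n)
  have h3 : ‖ff^[n] (cc k)‖ ≤ aa (k + n) ^ 2 := by
    rw [mem_ball, dist_eq_norm] at h2
    have h4 := norm_sub_norm_le (ff^[n] (cc k)) (cc (k + n))
    rw [norm_cc] at h4
    have := del_le (k + n)
    nlinarith
  have h4 : 1 ≤ ‖ff^[n] (cc k)‖ := by
    have := half_lower (del_le _) h2
    linarith
  have h5 : Real.log ‖ff^[n] (cc k)‖ ≤ 2 * y n := by
    have := Real.log_le_log (by linarith) h3
    rw [Real.log_pow] at this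
    exact_mod_cast this
  have h6 : 0 ≤ Real.log ‖ff^[n] (cc k)‖ := Real.log_nonneg h4
  have h7 : x n + y n = Real.log ‖ff^[n] (pp k)‖ := by
    have : 0 < ‖ff^[n] (pp k)‖ := by linarith [h1.1]
    simp only [hx, hy]
    rw [Real.log_div this.ne' (by linarith)]
    ring
  rw [← h7]
  have h8 : C * Real.log ‖ff^[n] (cc k)‖ ≤ |C| * (2 * y n) := by
    calc C * Real.log ‖ff^[n] (cc k)‖ ≤ |C| * Real.log ‖ff^[n] (cc k)‖ := by
          have := le_abs_self C
          gcongr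
      _ ≤ _ := by gcongr
  have h9 : |C| * (2 * y n) < x n := by
    have h10 := hmain n
    rw [div_lt_iff₀ hx0] at hn
    have h11 : 2 * |C| * y 0 * y n < 5 ^ n * x 0 * y n := by
      have := hy0 n
      gcongr
    have h12 : |C| * (2 * y n) * y 0 < x n * y 0 := by linarith
    exact lt_of_mul_lt_mul_right h12 (hy0 0).le
  linarith [hy0 n]

theorem sep2 (j k : ℕ) (hjk : j + 2 ≤ k) (C : ℝ) : ∃ᶠ n in atTop,
    C * Real.log ‖ff^[n] (pp j)‖ < Real.log ‖ff^[n] (pp k)‖ := by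
  apply Eventually.frequently
  have ht : Tendsto (fun n : ℕ => (2 : ℝ) ^ n) atTop atTop :=
    tendsto_pow_atTop_atTop_of_one_lt (by norm_num)
  filter_upwards [ht.eventually_gt_atTop |C|] with n hn
  have h1 := pp_orbit j n
  have h2 := pp_orbit k n
  set m := j + n + 1 with hm
  have ha := aa_one m
  have hL : 0 < Real.log (aa m) := Real.log_pos (by linarith)
  have h3 : Real.log ‖ff^[n] (pp j)‖ ≤ Real.log (aa m) := by
    apply Real.log_le_log
    · linarith [h1.1, aa_one (j + n)]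
    · exact h1.2.le.trans (RR_le _)
  have h30 : 0 ≤ Real.log ‖ff^[n] (pp j)‖ :=
    Real.log_nonneg (by linarith [h1.1, aa_one (j + n)])
  have h4 : ((dd m / 2 : ℕ) : ℝ) * Real.log (aa m) ≤ Real.log ‖ff^[n] (pp k)‖ := by
    rw [← Real.log_pow]
    apply Real.log_le_log (by positivity)
    refine (aa_lower m).trans ?_
    have h5 : aa (m + 1) ≤ aa (k + n) := aa_mono (by omega)
    linarith [h2.1, aa_one (k + n)]
  have h5 : (2 : ℝ) ^ n ≤ ((dd m / 2 : ℕ) : ℝ) := by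
    have h6 := dd_ge m
    have h7 : 2 ^ n ≤ dd m / 2 := by
      have h8 : 2 ^ n ≤ 2 ^ m := Nat.pow_le_pow_right (by norm_num) (by omega)
      omega
    exact_mod_cast h7
  calc C * Real.log ‖ff^[n] (pp j)‖ ≤ |C| * Real.log ‖ff^[n] (pp j)‖ := by
        have := le_abs_self C
        gcongr
    _ ≤ |C| * Real.log (aa m) := by gcongr
    _ < ((dd m / 2 : ℕ) : ℝ) * Real.log (aa m) := by gcongr; linarith
    _ ≤ _ := h4

theorem ff_not_const : ¬ ∃ w, ∀ z, ff z = w := by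
  rintro ⟨w, hw⟩
  have h1 := (pp_orbit 0 1)
  have h2 := (pp_orbit 1 1)
  simp only [Function.iterate_one, hw] at h1 h2
  have h3 := h1.2
  have h4 := h2.1
  have h5 := RR_le (0 + 1)
  have h6 : (0 + 1 + 1 : ℕ) = 1 + 1 := rfl
  rw [h6] at h5
  linarith [aa_pos (1 + 1)]

theorem ff_open (s : Set ℂ) (hs : IsOpen s) : IsOpen (ff '' s) := by
  have h := (ff_differentiable.differentiableOn.analyticOnNhd
    isOpen_univ).is_constant_or_isOpen isPreconnected_univ
  rcases h with ⟨w, hw⟩ | h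
  · exact absurd ⟨w, fun z => hw z (mem_univ z)⟩ ff_not_const
  · exact h s (subset_univ _) hs

theorem ff_not_poly : ¬ ∃ p : Polynomial ℂ, ∀ z, ff z = p.eval z := by
  rintro ⟨p, hp⟩
  set m := p.roots.card with hm
  set b : ℝ := (p.roots.map (fun x => ‖x‖)).sum with hb
  have hb' : ∀ x ∈ p.roots, ‖x‖ ≤ b := by
    intro x hx
    rw [hb]
    exact Multiset.single_le_sum (fun y hy => by
      obtain ⟨w, _, rfl⟩ := Multiset.mem_map.1 hy
      exact norm_nonneg _) _ (Multiset.mem_map_of_mem _ hx)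
  have hup := fun z => eval_upper p rfl hb' z
  set L := ‖p.leadingCoeff‖ with hL
  have hev : ∀ᶠ k in atTop, b ≤ aa k ∧ L * 2 ^ m * 2 < aa k ∧ 2 * (m + 1) ≤ dd k := by
    refine (aa_tendsto.eventually_ge_atTop b).and ((aa_tendsto.eventually_gt_atTop _).and ?_)
    filter_upwards [eventually_ge_atTop (2 * (m + 1))] with k hk
    have h1 := dd_ge k
    have h2 : k < 2 ^ k := Nat.lt_two_pow_self
    omega
  obtain ⟨k, h1, h2, h3⟩ := hev.exists
  have ha := aa_one k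
  -- lower bound
  have hlow : 99 / 100 * aa (k + 1) ≤ ‖ff (cc k)‖ := by
    apply ff_lower
    · rw [norm_cc]
      have := ten_le_RR k
      linarith
    · rw [← cc_succ k, norm_cc]
  have h4 := hup (cc k)
  rw [norm_cc] at h4
  rw [hp] at hlow
  have hL0 : 0 ≤ L := norm_nonneg _
  have hb0 : 0 ≤ b := by
    rw [hb]
    exact Multiset.sum_nonneg fun x hx => by
      obtain ⟨y, _, rfl⟩ := Multiset.mem_map.1 hx
      exact norm_nonneg _
  have h5 : aa k ^ (m + 1) ≤ aa (k + 1) :=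
    (pow_le_pow_right₀ (by linarith) (by omega)).trans (aa_lower k)
  have h6 : L * (aa k + b) ^ m ≤ L * 2 ^ m * aa k ^ m := by
    rw [mul_assoc, ← mul_pow]
    gcongr
    linarith
  have hpk : 0 < aa k ^ m := by positivity
  have h7 : 99 / 100 * (aa k ^ m * aa k) ≤ L * 2 ^ m * aa k ^ m := by
    rw [← pow_succ]
    linarith
  have h8 : L * 2 ^ m * aa k ^ m * 2 < aa k ^ m * aa k := by
    calc L * 2 ^ m * aa k ^ m * 2 = aa k ^ m * (L * 2 ^ m * 2) := by ring
      _ < _ := by gcongr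
  have h9 : 0 < aa k ^ m * aa k := by positivity
  linarith

theorem main : ∃ f : ℂ → ℂ, Differentiable ℂ f ∧ (¬ ∃ p : Polynomial ℂ, ∀ z, f z = p.eval z) ∧
    ∃ U : Set ℂ, (∃ z ∈ FatouSet f, U = FatouComponent f z) ∧ IsWanderingDomain f U ∧
      ¬ IsConnected Uᶜ ∧ ∃ K : Set ℂ, (∃ z ∈ Uᶜ, K = connectedComponentIn Uᶜ z) ∧
        Bornology.IsBounded K ∧ (interior K).Nonempty ∧
        ∃ 𝒱 : Set (Set ℂ), (∀ V ∈ 𝒱, ∃ z ∈ FatouSet f, V = FatouComponent f z) ∧
          interior K = ⋃₀ 𝒱 := by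
  refine ⟨ff, ff_differentiable, ff_not_poly, ?_⟩
  have hm : Tendsto (fun k => aa k / 2) atTop atTop :=
    aa_tendsto.atTop_div_const (by norm_num)
  have hdel : ∀ k, 0 < del k := fun k => by
    have := aa_pos k
    have := dd_pos k
    rw [del]; positivity
  have hRad : ∀ k, 0 < Rad k := fun k => by
    have := aa_pos k
    have := dd_pos k
    have := rho_pos k
    rw [Rad]; positivity
  refine abstract_type2 ff_differentiable ff_open (B := Bs) (G := Gs) (H := Hs) (c := cc)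
    (p := pp) (δ := del) (R := Rad) hm ?_ Bs_maps ?_ (fun k => subset_union_right)
    Gs_preconnected Gs_maps pp_Bs Hs_preconnected (fun k => subset_union_left) Hs_meet Hs_maps
    hdel hRad del_maps (fun k z hz => half_lower (del_le k) hz)
    (fun k z hz => half_lower (Rad_le k) hz) pp_not_mem sep1 sep2
  · intro k
    exact (isOpen_lt continuous_const continuous_norm).inter
      (isOpen_lt continuous_norm continuous_const)
  · intro k z hz
    have := hz.1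
    have := aa_pos k
    linarith

end Pool.Agent.W723.MC
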