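import Pool.Agent.W723.MC.Step2

/-!
The entire function.
-/

set_option autoImplicit false

open Filter Topology Metric Set Polynomial

namespace Pool.Agent.W723.MC

/-- the state of the construction: polynomial, point, degree, bound for the zeros -/
noncomputable def st : ℕ → ℂ[X] × ℂ × ℕ × ℝ
  | 0 => (X ^ 10000, (10000 : ℂ) ^ 100, 10000, 0)
  | k + 1 =>
    let F := (st k).1
    let c := (st k).2.1
    let d := (st k).2.2.1
    (F * PP F c d, (F * PP F c d).eval c, 11 * d + 1, 2 * ‖c‖)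

noncomputable def FF (k : ℕ) : ℂ[X] := (st k).1
noncomputable def cc (k : ℕ) : ℂ := (st k).2.1
noncomputable def dd (k : ℕ) : ℕ := (st k).2.2.1
noncomputable def bb (k : ℕ) : ℝ := (st k).2.2.2

theorem good (k : ℕ) : Good (FF k) (cc k) (dd k) (bb k) := by
  induction k with
  | zero => exact good_zero
  | succ k ih => exact ih.next

theorem FF_succ (k : ℕ) : FF (k + 1) = FF k * PP (FF k) (cc k) (dd k) := rfl
theorem cc_succ (k : ℕ) : cc (k + 1) = (FF (k + 1)).eval (cc k) := rfl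
theorem dd_succ (k : ℕ) : dd (k + 1) = 11 * dd k + 1 := rfl
theorem bb_succ (k : ℕ) : bb (k + 1) = 2 * ‖cc k‖ := rfl

noncomputable def aa (k : ℕ) : ℝ := ‖cc k‖

theorem dd_ge (k : ℕ) : 10000 * 2 ^ k ≤ dd k := by
  induction k with
  | zero => exact le_rfl
  | succ k ih => rw [dd_succ, pow_succ]; omega

theorem dd_ge' (k n : ℕ) : dd k * 2 ^ n ≤ dd (k + n) := by
  induction n with
  | zero => simp
  | succ n ih =>
    rw [← add_assoc, dd_succ, pow_succ]
    have : dd k * (2 ^ n * 2) = 2 * (dd k * 2 ^ n) := by ring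
    omega

theorem dd_real (k : ℕ) : (10000 : ℝ) ≤ dd k := (good k).hD

theorem aa_lower (k : ℕ) : aa k ^ (dd k / 2) ≤ aa (k + 1) := (good k).next_lower

theorem aa_upper (k : ℕ) : aa (k + 1) ≤ (1 + aa k) ^ dd k := (good k).next_upper

theorem aa_ha (k : ℕ) : 16 * (dd (k + 1) : ℝ) ^ 80 * (1 + 2 * aa k) ^ 2 ≤ aa (k + 1) :=
  (good (k + 1)).ha

theorem aa_big (k : ℕ) : 16 * (dd k : ℝ) ^ 80 ≤ aa k := (good k).apos

theorem aa_one (k : ℕ) : (160000 : ℝ) ≤ aa k := (good k).a1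

theorem aa_step (k : ℕ) : (dd (k + 1) : ℝ) ^ 80 * aa k ≤ aa (k + 1) := by
  refine le_trans ?_ (aa_ha k)
  have h1 := aa_one k
  have h2 : (0 : ℝ) ≤ (dd (k + 1) : ℝ) ^ 80 := by positivity
  have h3 : aa k ≤ 16 * (1 + 2 * aa k) ^ 2 := by nlinarith
  nlinarith [mul_le_mul_of_nonneg_left h3 h2]

theorem aa_mono_succ (k : ℕ) : aa k ≤ aa (k + 1) := by
  refine le_trans ?_ (aa_step k)
  have h1 := aa_one k
  have h2 : (1 : ℝ) ≤ (dd (k + 1) : ℝ) ^ 80 := one_le_pow₀ (by linarith [dd_real (k + 1)])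
  nlinarith

theorem aa_mono : Monotone aa := monotone_nat_of_le_succ aa_mono_succ

theorem pow_le_dd (k : ℕ) : (2 : ℝ) ^ k ≤ dd k := by
  have := dd_ge k
  have h2 : 2 ^ k ≤ dd k := by
    have : 0 < 2 ^ k := by positivity
    omega
  exact_mod_cast h2

theorem dd_le_aa (k : ℕ) : (dd k : ℝ) ≤ aa k := by
  have h1 := aa_big k
  have h2 := dd_real k
  have h3 : (dd k : ℝ) ≤ (dd k : ℝ) ^ 80 := by
    calc (dd k : ℝ) = (dd k : ℝ) ^ 1 := (pow_one _).symm
      _ ≤ _ := pow_le_pow_right₀ (by linarith) (by norm_num)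
  linarith

theorem aa_tendsto : Tendsto aa atTop atTop := by
  have h1 : Tendsto (fun k : ℕ => (2 : ℝ) ^ k) atTop atTop :=
    tendsto_pow_atTop_atTop_of_one_lt (by norm_num)
  exact tendsto_atTop_mono (fun k => (pow_le_dd k).trans (dd_le_aa k)) h1

/-- the perturbation terms -/
noncomputable def uu (k : ℕ) (z : ℂ) : ℂ := (PP (FF k) (cc k) (dd k)).eval z - 1

theorem FF_eval_succ (k : ℕ) (z : ℂ) : (FF (k + 1)).eval z = (FF k).eval z * (1 + uu k z) := by
  rw [FF_succ, eval_mul, uu]; ring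

theorem FF_eval_add (k n : ℕ) (z : ℂ) :
    (FF (k + n)).eval z = (FF k).eval z * ∏ i ∈ Finset.range n, (1 + uu (k + i) z) := by
  induction n with
  | zero => simp
  | succ n ih => rw [← add_assoc, FF_eval_succ, ih, Finset.prod_range_succ]; ring

theorem uu_bound {k : ℕ} {z : ℂ} (hz : 20 * dd k * ‖z‖ ≤ aa k) :
    ‖uu k z‖ ≤ 22 * dd k * ‖z‖ / aa k := (good k).P_near hz

theorem uu_bound2 {k : ℕ} {z : ℂ} {R : ℝ} (hz : ‖z‖ ≤ R) (hR : R ≤ 2 ^ k) :
    ‖uu k z‖ ≤ 22 * R * (1 / 2) ^ k := by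
  have hD := dd_real k
  have hR0 : 0 ≤ R := (norm_nonneg z).trans hz
  have ha := aa_big k
  have h2k := pow_le_dd k
  have ha0 : 0 < aa k := by linarith [aa_one k]
  have h3 : (dd k : ℝ) ^ 3 ≤ (dd k : ℝ) ^ 80 := pow_le_pow_right₀ (by linarith) (by norm_num)
  have h33 : 20 * (dd k : ℝ) * dd k ≤ 16 * (dd k : ℝ) ^ 3 := by
    have h34 : 0 ≤ (dd k : ℝ) * dd k * (16 * dd k - 20) :=
      mul_nonneg (by positivity) (by linarith)
    linarith [h34, show (dd k : ℝ) * dd k * (16 * dd k - 20) =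
      16 * (dd k : ℝ) ^ 3 - 20 * (dd k : ℝ) * dd k by ring]
  have h35 : 0 ≤ (dd k : ℝ) * dd k := by positivity
  have h4 : 20 * dd k * ‖z‖ ≤ aa k := by
    calc 20 * dd k * ‖z‖ ≤ 20 * dd k * dd k := by
          have : ‖z‖ ≤ dd k := hz.trans (hR.trans h2k)
          gcongr
      _ ≤ 16 * (dd k : ℝ) ^ 3 := by nlinarith
      _ ≤ _ := by linarith
  refine (uu_bound h4).trans ?_
  rw [div_le_iff₀ ha0, one_div, inv_pow]
  have h5 : (dd k : ℝ) * 2 ^ k ≤ aa k := by
    calc (dd k : ℝ) * 2 ^ k ≤ (dd k : ℝ) * dd k := by gcongr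
      _ ≤ 16 * (dd k : ℝ) ^ 3 := by nlinarith
      _ ≤ _ := by linarith
  have h6 : (0 : ℝ) < 2 ^ k := by positivity
  have h7 : (dd k : ℝ) ≤ (2 ^ k)⁻¹ * aa k := by
    rw [← div_eq_inv_mul, le_div_iff₀ h6]
    exact h5
  calc 22 * dd k * ‖z‖ ≤ 22 * dd k * R := by gcongr
    _ ≤ 22 * ((2 ^ k)⁻¹ * aa k) * R := by gcongr
    _ = _ := by ring

/-- The entire function. -/
noncomputable def ff (z : ℂ) : ℂ := z ^ 10000 * ∏' k, (1 + uu k z)

theorem uu_differentiable (k : ℕ) : Differentiable ℂ (uu k) :=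
  (Polynomial.differentiable _).sub_const 1

theorem hasProd_loc (R : ℝ) : HasProdLocallyUniformlyOn (fun k z => 1 + uu k z)
    (fun z => ∏' k, (1 + uu k z)) (ball (0 : ℂ) R) := by
  have hs : Summable (fun k : ℕ => 22 * R * (1 / 2 : ℝ) ^ k) :=
    (summable_geometric_of_lt_one (by norm_num) (by norm_num)).mul_left _
  refine hs.hasProdLocallyUniformlyOn_nat_one_add isOpen_ball ?_
    (fun n => (uu_differentiable n).continuous.continuousOn)
  have h1 : Tendsto (fun k : ℕ => (2 : ℝ) ^ k) atTop atTop :=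
    tendsto_pow_atTop_atTop_of_one_lt (by norm_num)
  filter_upwards [h1.eventually_ge_atTop R] with k hk z hz
  exact uu_bound2 (by simpa using (mem_ball_zero_iff.1 hz).le) hk

theorem ff_differentiable : Differentiable ℂ ff := by
  intro z
  have h1 : DifferentiableOn ℂ (fun z => ∏' k, (1 + uu k z)) (ball (0 : ℂ) (‖z‖ + 1)) := by
    refine (hasProd_loc (‖z‖ + 1)).differentiableOn (.of_forall fun s => ?_) isOpen_ball
    simpa [Finset.prod_fn] using
      DifferentiableOn.finsetProd (fun i _ =>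
        ((uu_differentiable i).const_add 1).differentiableOn)
  have h2 : DifferentiableAt ℂ (fun z => ∏' k, (1 + uu k z)) z :=
    h1.differentiableAt (isOpen_ball.mem_nhds (by simp))
  exact (differentiableAt_id.pow 10000).mul h2

theorem FF_tendsto (z : ℂ) : Tendsto (fun k => (FF k).eval z) atTop (𝓝 (ff z)) := by
  have h1 : HasProd (fun k => 1 + uu k z) (∏' k, (1 + uu k z)) :=
    (hasProd_loc (‖z‖ + 1)).hasProd (by simp)
  have h2 := h1.tendsto_prod_nat.const_mul (z ^ 10000)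
  refine h2.congr fun n => ?_
  have := FF_eval_add 0 n z
  rw [zero_add] at this
  rw [this]
  have h3 : FF 0 = X ^ 10000 := rfl
  rw [h3, eval_pow, eval_X]
  simp

/-- The tail of the product is close to one. -/
theorem tail {k : ℕ} {z : ℂ} (hz : ‖z‖ ≤ aa k / (dd k : ℝ) ^ 50) :
    ‖ff z - (FF k).eval z‖ ≤ 1 / (100 * (dd k : ℝ) ^ 4) * ‖(FF k).eval z‖ := by
  have hD := dd_real k
  have hD0 : (0 : ℝ) < dd k := by linarith
  -- bound for the terms
  have hterm : ∀ i : ℕ, ‖uu (k + i) z‖ ≤ 22 / (dd k : ℝ) ^ 49 * (1 / 2) ^ i := by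
    intro i
    have hDi := dd_real (k + i)
    have hDi0 : (0 : ℝ) < dd (k + i) := by linarith
    have ha0 : 0 < aa (k + i) := by linarith [aa_one (k + i)]
    have h1 : ‖z‖ ≤ aa (k + i) / (dd (k + i) : ℝ) ^ 50 := by
      rcases i with _ | i
      · exact hz
      · have h2 : ‖z‖ ≤ aa (k + i) := by
          refine hz.trans ?_
          have h3 : (1 : ℝ) ≤ (dd k : ℝ) ^ 50 := one_le_pow₀ (by linarith)
          have h4 : aa k / (dd k : ℝ) ^ 50 ≤ aa k := div_le_self (by linarith [aa_one k]) h3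
          exact h4.trans (aa_mono (by omega))
        rw [le_div_iff₀ (by positivity)]
        have h5 := aa_step (k + i)
        rw [← add_assoc] at *
        have h6 : (dd (k + i + 1) : ℝ) ^ 50 ≤ (dd (k + i + 1) : ℝ) ^ 80 :=
          pow_le_pow_right₀ (by linarith) (by norm_num)
        calc ‖z‖ * (dd (k + i + 1) : ℝ) ^ 50 ≤ aa (k + i) * (dd (k + i + 1) : ℝ) ^ 80 := by
              have := norm_nonneg z
              have h7 : 0 ≤ aa (k + i) := by linarith [aa_one (k + i)]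
              gcongr
          _ ≤ _ := by linarith
    rw [le_div_iff₀ (by positivity)] at h1
    have h2 : 20 * dd (k + i) * ‖z‖ ≤ aa (k + i) := by
      refine le_trans ?_ h1
      have h3 : 20 * (dd (k + i) : ℝ) ≤ (dd (k + i) : ℝ) ^ 50 := by
        calc 20 * (dd (k + i) : ℝ) ≤ (dd (k + i) : ℝ) * dd (k + i) := by gcongr; linarith
          _ = (dd (k + i) : ℝ) ^ 2 := by ring
          _ ≤ _ := pow_le_pow_right₀ (by linarith) (by norm_num)
      nlinarith [norm_nonneg z]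
    refine (uu_bound h2).trans ?_
    have h4 : ‖z‖ / aa (k + i) ≤ 1 / (dd (k + i) : ℝ) ^ 50 := by
      rw [div_le_div_iff₀ ha0 (by positivity)]
      linarith
    have h5 : 22 * (dd (k + i) : ℝ) * ‖z‖ / aa (k + i) ≤ 22 / (dd (k + i) : ℝ) ^ 49 := by
      calc 22 * (dd (k + i) : ℝ) * ‖z‖ / aa (k + i) = 22 * (dd (k + i) : ℝ) * (‖z‖ / aa (k + i)) := by
            ring
        _ ≤ 22 * (dd (k + i) : ℝ) * (1 / (dd (k + i) : ℝ) ^ 50) := by gcongr
        _ = 22 / (dd (k + i) : ℝ) ^ 49 := by field_simp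
    refine h5.trans ?_
    have h6 : (dd k : ℝ) * 2 ^ i ≤ dd (k + i) := by exact_mod_cast dd_ge' k i
    have h7 : (dd k : ℝ) ^ 49 * 2 ^ i ≤ (dd (k + i) : ℝ) ^ 49 := by
      calc (dd k : ℝ) ^ 49 * 2 ^ i ≤ (dd k : ℝ) ^ 49 * (2 ^ i) ^ 49 := by
            have : (1 : ℝ) ≤ 2 ^ i := one_le_pow₀ (by norm_num)
            gcongr
            exact le_self_pow₀ this (by norm_num)
        _ = ((dd k : ℝ) * 2 ^ i) ^ 49 := by rw [mul_pow]
        _ ≤ _ := by gcongr
    rw [one_div, inv_pow, ← div_eq_mul_inv, div_div]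
    exact div_le_div_of_nonneg_left (by norm_num) (by positivity) h7
  have hsum : ∀ n : ℕ, ∑ i ∈ Finset.range n, ‖uu (k + i) z‖ ≤ 44 / (dd k : ℝ) ^ 49 := by
    intro n
    calc ∑ i ∈ Finset.range n, ‖uu (k + i) z‖
        ≤ ∑ i ∈ Finset.range n, 22 / (dd k : ℝ) ^ 49 * (1 / 2) ^ i :=
          Finset.sum_le_sum fun i _ => hterm i
      _ = 22 / (dd k : ℝ) ^ 49 * ∑ i ∈ Finset.range n, (1 / 2 : ℝ) ^ i := by
          rw [Finset.mul_sum]
      _ ≤ 22 / (dd k : ℝ) ^ 49 * 2 := by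
          gcongr
          have h1 := Summable.sum_le_tsum (Finset.range n) (fun i _ => by positivity)
            (summable_geometric_of_lt_one (r := (1 / 2 : ℝ)) (by norm_num) (by norm_num))
          rwa [tsum_geometric_of_lt_one (by norm_num) (by norm_num),
            show (1 - 1 / 2 : ℝ)⁻¹ = 2 by norm_num] at h1
      _ = _ := by ring
  have hsmall : 44 / (dd k : ℝ) ^ 49 ≤ 1 / (200 * (dd k : ℝ) ^ 4) := by
    rw [div_le_div_iff₀ (by positivity) (by positivity)]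
    calc 44 * (200 * (dd k : ℝ) ^ 4) = 8800 * (dd k : ℝ) ^ 4 := by ring
      _ ≤ dd k * (dd k : ℝ) ^ 4 := by gcongr; linarith
      _ = (dd k : ℝ) ^ 5 := by ring
      _ ≤ (dd k : ℝ) ^ 49 := pow_le_pow_right₀ (by linarith) (by norm_num)
      _ = _ := by ring
  have hfin : ∀ n : ℕ, ‖(FF (k + n)).eval z - (FF k).eval z‖ ≤
      1 / (100 * (dd k : ℝ) ^ 4) * ‖(FF k).eval z‖ := by
    intro n
    rw [FF_eval_add]
    have e : (FF k).eval z * ∏ i ∈ Finset.range n, (1 + uu (k + i) z) - (FF k).eval z =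
        (FF k).eval z * (∏ i ∈ Finset.range n, (1 + uu (k + i) z) - 1) := by ring
    rw [e, norm_mul, mul_comm]
    have h1 := Finset.norm_prod_one_add_sub_one_le (Finset.range n) (fun i => uu (k + i) z)
    have h2 := hsum n
    set s := ∑ i ∈ Finset.range n, ‖uu (k + i) z‖ with hs
    have hs0 : 0 ≤ s := Finset.sum_nonneg fun i _ => norm_nonneg _
    have hs1 : s ≤ 1 / (200 * (dd k : ℝ) ^ 4) := h2.trans hsmall
    have hs2 : 1 / (200 * (dd k : ℝ) ^ 4) ≤ 1 := by
      rw [div_le_one (by positivity)]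
      have : (1 : ℝ) ≤ (dd k : ℝ) ^ 4 := one_le_pow₀ (by linarith)
      linarith
    have h3 := Real.abs_exp_sub_one_sub_id_le (x := s) (by rw [abs_of_nonneg hs0]; linarith)
    have h4 := (abs_le.1 h3).2
    have h5 : Real.exp s - 1 ≤ 2 * s := by nlinarith
    have h6 : ‖∏ i ∈ Finset.range n, (1 + uu (k + i) z) - 1‖ ≤ 1 / (100 * (dd k : ℝ) ^ 4) := by
      refine h1.trans (h5.trans ?_)
      calc 2 * s ≤ 2 * (1 / (200 * (dd k : ℝ) ^ 4)) := by gcongr
        _ = _ := by field_simp; norm_num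
    gcongr
  have hlim : Tendsto (fun n => ‖(FF (k + n)).eval z - (FF k).eval z‖) atTop
      (𝓝 ‖ff z - (FF k).eval z‖) := by
    have h1 : Tendsto (fun n => (FF (k + n)).eval z) atTop (𝓝 (ff z)) :=
      (FF_tendsto z).comp (tendsto_add_atTop_nat k |>.congr fun n => by ring)
    exact (h1.sub_const _).norm
  exact le_of_tendsto' hlim hfin

theorem hb' (k : ℕ) : ∀ x ∈ (FF (k + 1)).roots, ‖x‖ ≤ 2 * aa k := fun x hx => (good (k + 1)).hb x hx

theorem cc_succ' (k : ℕ) :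
    cc (k + 1) = (FF k).eval (cc k) * (ZZ (FF k) (cc k) (dd k))⁻¹ := (good k).next_eval

attribute [irreducible] FF cc dd bb ff

end Pool.Agent.W723.MC
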