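import Mathlib

/-!
Polynomial estimates: one step of the construction.
-/

set_option autoImplicit false

open Filter Topology Metric Set Polynomial

namespace Pool.Agent.W723.MC

/-! ### Products over multisets -/

theorem ms_prod_one_add (S : Multiset ℂ) :
    ‖(S.map (fun u => 1 + u)).prod - 1‖ ≤ Real.exp ((S.map (fun u => ‖u‖)).sum) - 1 ∧
    ‖(S.map (fun u => 1 + u)).prod - 1 - S.sum‖ ≤
      Real.exp ((S.map (fun u => ‖u‖)).sum) - 1 - (S.map (fun u => ‖u‖)).sum := by
  induction S using Multiset.induction with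
  | empty => simp
  | cons u S ih =>
    obtain ⟨h1, h2⟩ := ih
    set P := (S.map (fun u => 1 + u)).prod with hP
    set Y := (S.map (fun u => ‖u‖)).sum with hY
    simp only [Multiset.map_cons, Multiset.prod_cons, Multiset.sum_cons]
    rw [← hP, ← hY, Real.exp_add]
    have hu : 1 + ‖u‖ ≤ Real.exp ‖u‖ := by linarith [Real.add_one_le_exp ‖u‖]
    have hY0 : 0 ≤ Y := by
      rw [hY]
      exact Multiset.sum_nonneg fun x hx => by
        obtain ⟨y, _, rfl⟩ := Multiset.mem_map.1 hx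
        exact norm_nonneg _
    have hY1 : 1 ≤ Real.exp Y := Real.one_le_exp hY0
    have hun := norm_nonneg u
    have key : (1 + ‖u‖) * Real.exp Y ≤ Real.exp ‖u‖ * Real.exp Y := by gcongr
    constructor
    · have e : (1 + u) * P - 1 = (P - 1) + u * (P - 1) + u := by ring
      rw [e]
      calc ‖(P - 1) + u * (P - 1) + u‖ ≤ ‖P - 1‖ + ‖u‖ * ‖P - 1‖ + ‖u‖ := by
            refine (norm_add_le _ _).trans ?_
            gcongr
            refine (norm_add_le _ _).trans ?_
            rw [norm_mul]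
        _ ≤ (Real.exp Y - 1) + ‖u‖ * (Real.exp Y - 1) + ‖u‖ := by gcongr
        _ ≤ Real.exp ‖u‖ * Real.exp Y - 1 := by linarith
    · have e : (1 + u) * P - 1 - (u + S.sum) = (P - 1 - S.sum) + u * (P - 1) := by ring
      rw [e]
      calc ‖(P - 1 - S.sum) + u * (P - 1)‖ ≤ ‖P - 1 - S.sum‖ + ‖u‖ * ‖P - 1‖ := by
            refine (norm_add_le _ _).trans ?_
            rw [norm_mul]
        _ ≤ (Real.exp Y - 1 - Y) + ‖u‖ * (Real.exp Y - 1) := by gcongr
        _ ≤ Real.exp ‖u‖ * Real.exp Y - 1 - (‖u‖ + Y) := by linarith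

theorem ms_prod_lower (S : Multiset ℂ) (z : ℂ) {b : ℝ} (hb : ∀ x ∈ S, ‖x‖ ≤ b) (hz : b ≤ ‖z‖) :
    (‖z‖ - b) ^ S.card ≤ ‖(S.map (fun x => z - x)).prod‖ := by
  induction S using Multiset.induction with
  | empty => simp
  | cons x S ih =>
    have h1 := ih fun y hy => hb y (Multiset.mem_cons_of_mem hy)
    have h2 := hb x (Multiset.mem_cons_self x S)
    have h3 : ‖z‖ - b ≤ ‖z - x‖ := by linarith [norm_sub_norm_le z x]
    simp only [Multiset.map_cons, Multiset.prod_cons, Multiset.card_cons, pow_succ, norm_mul]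
    rw [mul_comm]
    have h4 : 0 ≤ ‖z‖ - b := by linarith
    gcongr

theorem ms_prod_upper (S : Multiset ℂ) (z : ℂ) {b : ℝ} (hb : ∀ x ∈ S, ‖x‖ ≤ b) :
    ‖(S.map (fun x => z - x)).prod‖ ≤ (‖z‖ + b) ^ S.card := by
  induction S using Multiset.induction with
  | empty => simp
  | cons x S ih =>
    have h1 := ih fun y hy => hb y (Multiset.mem_cons_of_mem hy)
    have h2 := hb x (Multiset.mem_cons_self x S)
    have h3 : ‖z - x‖ ≤ ‖z‖ + b := by linarith [norm_sub_le z x]
    have h4 := norm_nonneg (z - x)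
    have h5 : 0 ≤ (‖z‖ + b) ^ S.card := pow_nonneg (h4.trans h3) _
    simp only [Multiset.map_cons, Multiset.prod_cons, Multiset.card_cons, pow_succ, norm_mul]
    rw [mul_comm]
    gcongr

theorem eval_eq_prod (F : ℂ[X]) (z : ℂ) :
    F.eval z = F.leadingCoeff * (F.roots.map (fun x => z - x)).prod := by
  have h := (IsAlgClosed.splits F).eq_prod_roots
  conv_lhs => rw [h]
  rw [eval_mul, eval_C, eval_multiset_prod, Multiset.map_map]
  simp

theorem eval_lower (F : ℂ[X]) {d : ℕ} (hd : F.roots.card = d) {b : ℝ}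
    (hb : ∀ x ∈ F.roots, ‖x‖ ≤ b) {z : ℂ} (hz : b ≤ ‖z‖) :
    ‖F.leadingCoeff‖ * (‖z‖ - b) ^ d ≤ ‖F.eval z‖ := by
  rw [eval_eq_prod, norm_mul, ← hd]
  exact mul_le_mul_of_nonneg_left (ms_prod_lower _ z hb hz) (norm_nonneg _)

theorem eval_upper (F : ℂ[X]) {d : ℕ} (hd : F.roots.card = d) {b : ℝ}
    (hb : ∀ x ∈ F.roots, ‖x‖ ≤ b) (z : ℂ) :
    ‖F.eval z‖ ≤ ‖F.leadingCoeff‖ * (‖z‖ + b) ^ d := by
  rw [eval_eq_prod, norm_mul, ← hd]
  exact mul_le_mul_of_nonneg_left (ms_prod_upper _ z hb) (norm_nonneg _)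

/-- The logarithmic derivative of `F` at `c`. -/
noncomputable def al (F : ℂ[X]) (c : ℂ) : ℂ := (F.roots.map (fun x => (c - x)⁻¹)).sum

theorem ms_sum_norm_le (S : Multiset ℂ) (g : ℂ → ℂ) {t : ℝ} (h : ∀ x ∈ S, ‖g x‖ ≤ t) :
    (S.map (fun x => ‖g x‖)).sum ≤ S.card * t := by
  induction S using Multiset.induction with
  | empty => simp
  | cons x S ih =>
    have h1 := ih fun y hy => h y (Multiset.mem_cons_of_mem hy)
    have h2 := h x (Multiset.mem_cons_self x S)
    simp only [Multiset.map_cons, Multiset.sum_cons, Multiset.card_cons]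
    push_cast
    linarith

theorem ms_norm_sum_le (S : Multiset ℂ) (g : ℂ → ℂ) {t : ℝ} (h : ∀ x ∈ S, ‖g x‖ ≤ t) :
    ‖(S.map g).sum‖ ≤ S.card * t := by
  induction S using Multiset.induction with
  | empty => simp
  | cons x S ih =>
    have h1 := ih fun y hy => h y (Multiset.mem_cons_of_mem hy)
    have h2 := h x (Multiset.mem_cons_self x S)
    simp only [Multiset.map_cons, Multiset.sum_cons, Multiset.card_cons]
    push_cast
    have := norm_add_le (g x) (S.map g).sum
    linarith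

/-- Second order expansion of `F` at `c`. -/
theorem eval_expand (F : ℂ[X]) {d : ℕ} (hd : F.roots.card = d) {b : ℝ}
    (hb : ∀ x ∈ F.roots, ‖x‖ ≤ b) {c : ℂ} (hc : b < ‖c‖) (z : ℂ) {y : ℝ}
    (hy : d * (‖z - c‖ / (‖c‖ - b)) ≤ y) (hy1 : y ≤ 1) :
    ∃ e : ℂ, F.eval z = F.eval c * (1 + al F c * (z - c) + e) ∧ ‖e‖ ≤ y ^ 2 := by
  have hne : ∀ x ∈ F.roots, c - x ≠ 0 := by
    intro x hx h
    rw [sub_eq_zero] at h
    have := hb x hx
    rw [← h] at this
    linarith
  have hcb : 0 < ‖c‖ - b := by linarith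
  set S : Multiset ℂ := F.roots.map (fun x => (z - c) * (c - x)⁻¹) with hS
  have hprod : (F.roots.map (fun x => z - x)).prod =
      (F.roots.map (fun x => c - x)).prod * (S.map (fun u => 1 + u)).prod := by
    rw [hS, Multiset.map_map, ← Multiset.prod_map_mul]
    congr 1
    apply Multiset.map_congr rfl
    intro x hx
    simp only [Function.comp]
    have := hne x hx
    field_simp
    ring
  have hsum : S.sum = al F c * (z - c) := by
    rw [hS, al, Multiset.sum_map_mul_left, mul_comm]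
  obtain ⟨-, h2⟩ := ms_prod_one_add S
  have hY : (S.map (fun u => ‖u‖)).sum ≤ y := by
    rw [hS, Multiset.map_map]
    have := ms_sum_norm_le F.roots (fun x => (z - c) * (c - x)⁻¹) (t := ‖z - c‖ / (‖c‖ - b))
      (fun x hx => by
        rw [norm_mul, norm_inv, div_eq_mul_inv]
        have h3 : ‖c‖ - b ≤ ‖c - x‖ := by linarith [norm_sub_norm_le c x, hb x hx]
        gcongr)
    rw [hd] at this
    exact this.trans hy
  have hY0 : 0 ≤ (S.map (fun u => ‖u‖)).sum :=
    Multiset.sum_nonneg fun x hx => by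
      obtain ⟨y, _, rfl⟩ := Multiset.mem_map.1 hx
      exact norm_nonneg _
  refine ⟨(S.map (fun u => 1 + u)).prod - 1 - S.sum, ?_, ?_⟩
  · rw [eval_eq_prod F z, eval_eq_prod F c, hprod, hsum]
    ring
  · refine h2.trans ?_
    set Y := (S.map (fun u => ‖u‖)).sum
    have h3 := Real.abs_exp_sub_one_sub_id_le (x := Y) (by rw [abs_of_nonneg hY0]; linarith)
    have h4 := (abs_le.1 h3).2
    nlinarith

end Pool.Agent.W723.MC
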