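import Pool.Agent.W723.MC.Poly

/-!
One step of the construction: the factor `P` and the invariants.
-/

set_option autoImplicit false

open Filter Topology Metric Set Polynomial

namespace Pool.Agent.W723.MC

/-- normalising constant -/
noncomputable def ZZ (F : ℂ[X]) (c : ℂ) (d : ℕ) : ℂ :=
  (1 + al F c * c) * (1 + (d : ℂ) ^ (4 * (10 * d)))

/-- the factor `P` -/
noncomputable def PP (F : ℂ[X]) (c : ℂ) (d : ℕ) : ℂ[X] :=
  C (ZZ F c d)⁻¹ * ((1 - C (al F c) * (X - C c)) *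
    (1 + (C ((d : ℂ) ^ 4 / c) * (X - C c)) ^ (10 * d)))

theorem PP_eval (F : ℂ[X]) (c : ℂ) (d : ℕ) (z : ℂ) :
    (PP F c d).eval z = (ZZ F c d)⁻¹ * ((1 - al F c * (z - c)) *
      (1 + ((d : ℂ) ^ 4 / c * (z - c)) ^ (10 * d))) := by
  simp [PP]

/-- The invariants. -/
structure Good (F : ℂ[X]) (c : ℂ) (d : ℕ) (b : ℝ) : Prop where
  card : F.roots.card = d
  ne : F ≠ 0
  hd : 10000 ≤ d
  hb0 : 0 ≤ b
  hb : ∀ x ∈ F.roots, ‖x‖ ≤ b
  ha : 16 * (d : ℝ) ^ 80 * (1 + b) ^ 2 ≤ ‖c‖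
  big : ‖c‖ ^ (d / 2) * (4 * d * (d : ℝ) ^ (40 * d)) ≤ ‖F.eval c‖
  upper : ∀ z, ‖F.eval z‖ ≤ (1 + ‖z‖) ^ d

namespace Good

variable {F : ℂ[X]} {c : ℂ} {d : ℕ} {b : ℝ}

theorem hD (h : Good F c d b) : (10000 : ℝ) ≤ d := by exact_mod_cast h.hd

theorem D80 (h : Good F c d b) : (10000 : ℝ) ≤ (d : ℝ) ^ 80 := by
  have := h.hD
  calc (10000 : ℝ) ≤ d := this
    _ = (d : ℝ) ^ 1 := (pow_one _).symm
    _ ≤ (d : ℝ) ^ 80 := pow_le_pow_right₀ (by linarith) (by norm_num)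

theorem hb1 (h : Good F c d b) : 16 * (d : ℝ) ^ 80 * (1 + b) ≤ ‖c‖ := by
  refine le_trans ?_ h.ha
  have := h.D80
  have h0 := h.hb0
  have : 1 + b ≤ (1 + b) ^ 2 := by nlinarith
  gcongr

theorem apos (h : Good F c d b) : 16 * (d : ℝ) ^ 80 ≤ ‖c‖ := by
  refine le_trans ?_ h.hb1
  have := h.D80
  have h0 := h.hb0
  have : (0 : ℝ) < 16 * (d : ℝ) ^ 80 := by linarith
  nlinarith

theorem a1 (h : Good F c d b) : (160000 : ℝ) ≤ ‖c‖ := by
  have := h.D80
  linarith [h.apos]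

theorem c_ne (h : Good F c d b) : c ≠ 0 := by
  intro h0
  have := h.a1
  rw [h0, norm_zero] at this
  linarith

theorem b_small (h : Good F c d b) : b ≤ ‖c‖ / 160000 := by
  have h1 := h.hb1
  have h2 := h.D80
  have h0 := h.hb0
  rw [le_div_iff₀ (by norm_num)]
  nlinarith

theorem b_lt (h : Good F c d b) : b < ‖c‖ := by
  have := h.b_small
  have := h.a1
  linarith

theorem al_near (h : Good F c d b) : ‖al F c * c - d‖ ≤ 1 / 100 := by
  have hne : ∀ x ∈ F.roots, c - x ≠ 0 := by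
    intro x hx h'
    rw [sub_eq_zero] at h'
    have := h.hb x hx
    rw [← h'] at this
    linarith [h.b_lt]
  have e : al F c * c - d = (F.roots.map (fun x => x * (c - x)⁻¹)).sum := by
    have e1 : (d : ℂ) = (F.roots.map (fun _ => (1 : ℂ))).sum := by
      rw [Multiset.map_const', Multiset.sum_replicate, h.card]
      simp
    rw [e1, al, ← Multiset.sum_map_mul_right, ← Multiset.sum_map_sub]
    congr 1
    apply Multiset.map_congr rfl
    intro x hx
    have := hne x hx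
    field_simp
    ring
  rw [e]
  have hcb : 0 < ‖c‖ - b := by linarith [h.b_lt]
  have h1 := ms_norm_sum_le F.roots (fun x => x * (c - x)⁻¹) (t := b / (‖c‖ - b)) (fun x hx => by
    rw [norm_mul, norm_inv, div_eq_mul_inv]
    have h3 : ‖c‖ - b ≤ ‖c - x‖ := by linarith [norm_sub_norm_le c x, h.hb x hx]
    have h4 := h.hb x hx
    have h5 := h.hb0
    gcongr)
  refine h1.trans ?_
  rw [h.card, mul_div_assoc', div_le_iff₀ hcb]
  have h2 := h.hb1
  have h3 := h.hD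
  have h4 := h.hb0
  have h5 : (d : ℝ) * 10000 ≤ (d : ℝ) ^ 80 := by
    calc (d : ℝ) * 10000 ≤ (d : ℝ) * d := by gcongr
      _ = (d : ℝ) ^ 2 := by ring
      _ ≤ (d : ℝ) ^ 80 := pow_le_pow_right₀ (by linarith) (by norm_num)
  nlinarith [mul_nonneg (show (0 : ℝ) ≤ d by linarith) h4]

theorem al_upper (h : Good F c d b) : ‖al F c * c‖ ≤ d + 1 / 100 := by
  have h1 := h.al_near
  have h2 : ‖(d : ℂ)‖ = d := by simp
  have h3 := norm_add_le (al F c * c - d) (d : ℂ)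
  rw [sub_add_cancel, h2] at h3
  linarith

theorem al_ne (h : Good F c d b) : al F c ≠ 0 := by
  intro h0
  have h1 := h.al_near
  rw [h0, zero_mul, zero_sub, norm_neg] at h1
  have h2 : ‖(d : ℂ)‖ = d := by simp
  rw [h2] at h1
  linarith [h.hD]

theorem one_add_al (h : Good F c d b) : (d : ℝ) + 1 - 1 / 100 ≤ ‖1 + al F c * c‖ ∧
    ‖1 + al F c * c‖ ≤ d + 1 + 1 / 100 := by
  have h1 := h.al_near
  have h2 : ‖((d : ℂ) + 1)‖ = d + 1 := by
    have : ((d : ℂ) + 1) = ((d + 1 : ℕ) : ℂ) := by push_cast; ring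
    rw [this, Complex.norm_natCast]; push_cast; ring
  have e : 1 + al F c * c = (al F c * c - d) + ((d : ℂ) + 1) := by ring
  constructor
  · have h3 := norm_sub_norm_le ((d : ℂ) + 1) (-(al F c * c - d))
    rw [norm_neg, h2, sub_neg_eq_add] at h3
    rw [e, add_comm (al F c * c - d)]
    linarith
  · rw [e]
    have h3 := norm_add_le (al F c * c - d) ((d : ℂ) + 1)
    linarith

theorem norm_big (h : Good F c d b) : ‖(1 + (d : ℂ) ^ (4 * (10 * d)))‖ =
    1 + (d : ℝ) ^ (40 * d) := by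
  have : (1 + (d : ℂ) ^ (4 * (10 * d))) = ((1 + d ^ (4 * (10 * d)) : ℕ) : ℂ) := by push_cast; ring
  rw [this, Complex.norm_natCast]
  push_cast
  congr 2
  ring

theorem ZZ_lower (h : Good F c d b) : 1 ≤ ‖ZZ F c d‖ := by
  rw [ZZ, norm_mul, h.norm_big]
  have h1 := h.one_add_al.1
  have h2 := h.hD
  have h3 : (0 : ℝ) ≤ (d : ℝ) ^ (40 * d) := by positivity
  nlinarith

theorem ZZ_upper (h : Good F c d b) : ‖ZZ F c d‖ ≤ 4 * d * (d : ℝ) ^ (40 * d) := by
  rw [ZZ, norm_mul, h.norm_big]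
  have h1 := h.one_add_al.2
  have h2 := h.hD
  have h3 : (1 : ℝ) ≤ (d : ℝ) ^ (40 * d) := one_le_pow₀ (by linarith)
  calc ‖1 + al F c * c‖ * (1 + (d : ℝ) ^ (40 * d)) ≤ (2 * d) * (2 * (d : ℝ) ^ (40 * d)) := by
        gcongr
        · linarith
        · linarith
    _ = _ := by ring

theorem ZZ_ne (h : Good F c d b) : ZZ F c d ≠ 0 := by
  intro h0
  have := h.ZZ_lower
  rw [h0, norm_zero] at this
  linarith

theorem F_ne (h : Good F c d b) : F.eval c ≠ 0 := by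
  intro h0
  have h1 := h.big
  rw [h0, norm_zero] at h1
  have h2 := h.hD
  have h3 := h.a1
  have : 0 < ‖c‖ ^ (d / 2) * (4 * d * (d : ℝ) ^ (40 * d)) := by positivity
  linarith

/-- the next point -/
theorem next_eval (h : Good F c d b) : (F * PP F c d).eval c = F.eval c * (ZZ F c d)⁻¹ := by
  have hd : 10 * d ≠ 0 := by have := h.hd; omega
  rw [eval_mul, PP_eval]
  simp [hd]

/-- the main formula -/
theorem next_formula (h : Good F c d b) (z : ℂ) : (F * PP F c d).eval z =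
    (F * PP F c d).eval c * ((F.eval z / F.eval c) * (1 - al F c * (z - c)) *
      (1 + ((d : ℂ) ^ 4 / c * (z - c)) ^ (10 * d))) := by
  rw [h.next_eval, eval_mul, PP_eval]
  have := h.F_ne
  have := h.ZZ_ne
  field_simp

theorem next_lower (h : Good F c d b) : ‖c‖ ^ (d / 2) ≤ ‖(F * PP F c d).eval c‖ := by
  rw [h.next_eval, norm_mul, norm_inv, ← div_eq_mul_inv, le_div_iff₀ (by linarith [h.ZZ_lower])]
  refine le_trans ?_ h.big
  have := h.ZZ_upper
  gcongr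

theorem next_upper (h : Good F c d b) : ‖(F * PP F c d).eval c‖ ≤ (1 + ‖c‖) ^ d := by
  rw [h.next_eval, norm_mul, norm_inv]
  have h1 := h.upper c
  have h2 := h.ZZ_lower
  have h3 : ‖ZZ F c d‖⁻¹ ≤ 1 := inv_le_one_of_one_le₀ h2
  calc ‖F.eval c‖ * ‖ZZ F c d‖⁻¹ ≤ ‖F.eval c‖ * 1 := by gcongr
    _ ≤ _ := by rw [mul_one]; exact h1

end Good

end Pool.Agent.W723.MC
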