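import Pool.Agent.W723.MC.Step

/-!
The factor `P` away from `c`, and the induction step.
-/

set_option autoImplicit false

open Filter Topology Metric Set Polynomial

namespace Pool.Agent.W723.MC

namespace Good

variable {F : ℂ[X]} {c : ℂ} {d : ℕ} {b : ℝ}

theorem P_factor (h : Good F c d b) (z : ℂ) : (PP F c d).eval z =
    (1 - al F c * z / (1 + al F c * c)) *
      ((1 + (d : ℂ) ^ (4 * (10 * d)) * (1 - z / c) ^ (10 * d)) /
        (1 + (d : ℂ) ^ (4 * (10 * d)))) := by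
  have hc := h.c_ne
  have h1 : 1 + al F c * c ≠ 0 := by
    intro h0
    have := h.one_add_al.1
    rw [h0, norm_zero] at this
    linarith [h.hD]
  have h2 : (1 + (d : ℂ) ^ (4 * (10 * d))) ≠ 0 := by
    intro h0
    have := h.norm_big
    rw [h0, norm_zero] at this
    have : (0 : ℝ) ≤ (d : ℝ) ^ (40 * d) := by positivity
    linarith
  rw [PP_eval, ZZ]
  have e1 : ((d : ℂ) ^ 4 / c * (z - c)) ^ (10 * d) =
      (d : ℂ) ^ (4 * (10 * d)) * (1 - z / c) ^ (10 * d) := by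
    have e2 : (d : ℂ) ^ 4 / c * (z - c) = -((d : ℂ) ^ 4 * (1 - z / c)) := by
      field_simp
      ring
    have he : Even (10 * d) := ⟨5 * d, by ring⟩
    rw [e2, he.neg_pow, mul_pow, ← pow_mul]
  rw [e1]
  field_simp
  ring

theorem x_one (h : Good F c d b) (z : ℂ) :
    ‖al F c * z / (1 + al F c * c)‖ ≤ ‖z‖ / ‖c‖ := by
  have hc := h.c_ne
  have hcn : 0 < ‖c‖ := by linarith [h.a1]
  have e : al F c * z / (1 + al F c * c) = (z / c) * (al F c * c / (1 + al F c * c)) := by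
    field_simp
  rw [e, norm_mul, norm_div]
  have h1 := h.al_upper
  have h2 := h.one_add_al.1
  have h3 : ‖al F c * c / (1 + al F c * c)‖ ≤ 1 := by
    rw [norm_div]
    apply div_le_one_of_le₀
    · linarith
    · positivity
  calc ‖z‖ / ‖c‖ * ‖al F c * c / (1 + al F c * c)‖ ≤ ‖z‖ / ‖c‖ * 1 := by gcongr
    _ = _ := mul_one _

theorem P_upper (h : Good F c d b) (z : ℂ) :
    ‖(PP F c d).eval z‖ ≤ (1 + ‖z‖) ^ (10 * d + 1) := by
  have hc1 : 1 ≤ ‖c‖ := by linarith [h.a1]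
  have hx : ‖z‖ / ‖c‖ ≤ ‖z‖ := div_le_self (norm_nonneg _) hc1
  rw [h.P_factor, norm_mul, norm_div, h.norm_big, pow_succ, mul_comm]
  have h1 : ‖1 - al F c * z / (1 + al F c * c)‖ ≤ 1 + ‖z‖ := by
    refine (norm_sub_le _ _).trans ?_
    rw [norm_one]
    linarith [h.x_one z]
  have hK : ‖(d : ℂ) ^ (4 * (10 * d))‖ = (d : ℝ) ^ (40 * d) := by
    rw [norm_pow, Complex.norm_natCast]
    congr 1; ring
  have hK0 : (0 : ℝ) ≤ (d : ℝ) ^ (40 * d) := by positivity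
  have h2 : ‖1 + (d : ℂ) ^ (4 * (10 * d)) * (1 - z / c) ^ (10 * d)‖ ≤
      (1 + (d : ℝ) ^ (40 * d)) * (1 + ‖z‖) ^ (10 * d) := by
    refine (norm_add_le _ _).trans ?_
    rw [norm_one, norm_mul, hK, norm_pow]
    have h3 : ‖1 - z / c‖ ≤ 1 + ‖z‖ := by
      refine (norm_sub_le _ _).trans ?_
      rw [norm_one, norm_div]
      linarith
    have h4 : (1 : ℝ) ≤ (1 + ‖z‖) ^ (10 * d) := one_le_pow₀ (by linarith [norm_nonneg z])
    have h5 : ‖1 - z / c‖ ^ (10 * d) ≤ (1 + ‖z‖) ^ (10 * d) := by gcongr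
    nlinarith
  have h3 : ‖1 + (d : ℂ) ^ (4 * (10 * d)) * (1 - z / c) ^ (10 * d)‖ / (1 + (d : ℝ) ^ (40 * d)) ≤
      (1 + ‖z‖) ^ (10 * d) := by
    rw [div_le_iff₀ (by linarith), mul_comm ((1 + ‖z‖) ^ (10 * d))]
    exact h2
  gcongr

theorem P_near (h : Good F c d b) {z : ℂ} (hz : 20 * d * ‖z‖ ≤ ‖c‖) :
    ‖(PP F c d).eval z - 1‖ ≤ 22 * d * ‖z‖ / ‖c‖ := by
  have hcn : 0 < ‖c‖ := by linarith [h.a1]
  have hD := h.hD
  set x : ℝ := ‖z‖ / ‖c‖ with hx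
  have hx0 : 0 ≤ x := by positivity
  have hx1 : 20 * d * x ≤ 1 := by
    rw [hx, mul_div_assoc', div_le_one hcn]
    exact hz
  have e0 : 22 * d * ‖z‖ / ‖c‖ = 22 * d * x := by rw [hx]; ring
  rw [h.P_factor, e0]
  set u : ℂ := -(al F c * z / (1 + al F c * c)) with hu
  set K : ℂ := (d : ℂ) ^ (4 * (10 * d)) with hKdef
  have hK : ‖K‖ = (d : ℝ) ^ (40 * d) := by
    rw [hKdef, norm_pow, Complex.norm_natCast]
    congr 1; ring
  have hK0 : (0 : ℝ) ≤ (d : ℝ) ^ (40 * d) := by positivity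
  have hKn : ‖1 + K‖ = 1 + (d : ℝ) ^ (40 * d) := h.norm_big
  have hKne : 1 + K ≠ 0 := by
    intro h0
    rw [h0, norm_zero] at hKn
    linarith
  set v : ℂ := K * ((1 - z / c) ^ (10 * d) - 1) / (1 + K) with hv
  have e1 : (1 + K * (1 - z / c) ^ (10 * d)) / (1 + K) = 1 + v := by
    rw [hv]
    field_simp
    ring
  have e2 : 1 - al F c * z / (1 + al F c * c) = 1 + u := by rw [hu]; ring
  rw [e1, e2]
  have hun : ‖u‖ ≤ x := by
    rw [hu, norm_neg]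
    exact h.x_one z
  -- the bound on v
  have hpow : ‖(1 - z / c) ^ (10 * d) - 1‖ ≤ 20 * d * x := by
    have h1 := (ms_prod_one_add (Multiset.replicate (10 * d) (-(z / c)))).1
    simp only [Multiset.map_replicate, Multiset.prod_replicate, Multiset.sum_replicate] at h1
    rw [norm_neg, norm_div, ← hx, ← sub_eq_add_neg] at h1
    refine h1.trans ?_
    have h2 : (10 * d) • x = 10 * d * x := by simp
    rw [h2]
    have hy0 : 0 ≤ 10 * d * x := by positivity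
    have h3 := Real.abs_exp_sub_one_sub_id_le (x := 10 * d * x) (by
      rw [abs_of_nonneg hy0]; linarith)
    have h4 := (abs_le.1 h3).2
    nlinarith
  have hvn : ‖v‖ ≤ 20 * d * x := by
    rw [hv, norm_div, norm_mul, hK, hKn]
    rw [div_le_iff₀ (by linarith)]
    have : (d : ℝ) ^ (40 * d) * ‖(1 - z / c) ^ (10 * d) - 1‖ ≤ (d : ℝ) ^ (40 * d) * (20 * d * x) := by
      gcongr
    nlinarith [mul_nonneg (show (0 : ℝ) ≤ 20 * d by linarith) hx0]
  have e3 : (1 + u) * (1 + v) - 1 = u + v + u * v := by ring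
  rw [e3]
  calc ‖u + v + u * v‖ ≤ ‖u‖ + ‖v‖ + ‖u‖ * ‖v‖ := by
        refine (norm_add_le _ _).trans ?_
        rw [norm_mul]
        gcongr
        exact norm_add_le _ _
    _ ≤ x + 20 * d * x + x * 1 := by
        have : ‖v‖ ≤ 1 := hvn.trans hx1
        gcongr
    _ ≤ 22 * d * x := by nlinarith

theorem P_ne (h : Good F c d b) : PP F c d ≠ 0 := by
  intro h0
  have h1 := PP_eval F c d c
  rw [h0] at h1
  have hd : 10 * d ≠ 0 := by have := h.hd; omega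
  simp only [eval_zero, sub_self, mul_zero, sub_zero, zero_pow hd, add_zero, mul_one] at h1
  exact h.ZZ_ne (inv_eq_zero.1 h1.symm)

theorem P_natDegree (h : Good F c d b) : (PP F c d).natDegree = 10 * d + 1 := by
  have hd : 10 * d ≠ 0 := by have := h.hd; omega
  have hal := h.al_ne
  have hc := h.c_ne
  have hdC : (d : ℂ) ≠ 0 := by
    have := h.hd
    exact_mod_cast (by omega : d ≠ 0)
  have ht : (d : ℂ) ^ 4 / c ≠ 0 := div_ne_zero (pow_ne_zero _ hdC) hc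
  have h1 : (1 - C (al F c) * (X - C c)).natDegree = 1 := by
    have e : (1 - C (al F c) * (X - C c) : ℂ[X]) = C (-al F c) * X + C (1 + al F c * c) := by
      simp only [C_neg, C_add, C_mul, C_1]; ring
    rw [e, natDegree_linear (neg_ne_zero.2 hal)]
  have h2 : (1 + (C ((d : ℂ) ^ 4 / c) * (X - C c)) ^ (10 * d)).natDegree = 10 * d := by
    have h3 : ((C ((d : ℂ) ^ 4 / c) * (X - C c)) ^ (10 * d) : ℂ[X]).natDegree = 10 * d := by
      rw [natDegree_pow, natDegree_C_mul ht, natDegree_X_sub_C, mul_one]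
    rw [natDegree_add_eq_right_of_natDegree_lt, h3]
    rw [h3, natDegree_one]
    omega
  have hz : (ZZ F c d)⁻¹ ≠ 0 := inv_ne_zero h.ZZ_ne
  rw [PP, natDegree_C_mul hz, natDegree_mul, h1, h2]
  · ring
  · intro h0; rw [h0] at h1; simp at h1
  · intro h0; rw [h0] at h2; simp at h2; exact hd (by omega)

theorem P_roots (h : Good F c d b) {x : ℂ} (hx : x ∈ (PP F c d).roots) : ‖x‖ ≤ 2 * ‖c‖ := by
  rw [mem_roots h.P_ne, IsRoot.def, PP_eval] at hx
  have hD := h.hD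
  have hcn : 0 < ‖c‖ := by linarith [h.a1]
  have hz : (ZZ F c d)⁻¹ ≠ 0 := inv_ne_zero h.ZZ_ne
  have hxc : ‖x‖ ≤ ‖x - c‖ + ‖c‖ := by simpa using norm_add_le (x - c) c
  rcases mul_eq_zero.1 hx with h1 | h1
  · exact absurd h1 hz
  rcases mul_eq_zero.1 h1 with h2 | h2
  · -- the extra zero
    have h3 : al F c * (x - c) = 1 := by linear_combination -h2
    have h4 : ‖al F c‖ * ‖x - c‖ = 1 := by rw [← norm_mul, h3, norm_one]
    have h5 : 1 ≤ ‖al F c * c‖ := by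
      have h6 := h.al_near
      have h7 : ‖(d : ℂ)‖ = d := by simp
      have h8 := norm_sub_norm_le (d : ℂ) (al F c * c)
      rw [h7, norm_sub_rev] at h8
      linarith
    rw [norm_mul] at h5
    have h6 : ‖x - c‖ ≤ ‖c‖ := by
      by_contra hcon
      push Not at hcon
      have : 0 < ‖al F c‖ := norm_pos_iff.2 h.al_ne
      nlinarith
    linarith
  · have h3 : ((d : ℂ) ^ 4 / c * (x - c)) ^ (10 * d) = -1 := by linear_combination h2
    have h4 : ‖(d : ℂ) ^ 4 / c * (x - c)‖ ^ (10 * d) = 1 := by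
      rw [← norm_pow, h3, norm_neg, norm_one]
    have hd : 10 * d ≠ 0 := by have := h.hd; omega
    have h5 : ‖(d : ℂ) ^ 4 / c * (x - c)‖ = 1 :=
      (pow_eq_one_iff_of_nonneg (norm_nonneg _) hd).1 h4
    rw [norm_mul, norm_div, norm_pow, Complex.norm_natCast, div_mul_eq_mul_div,
      div_eq_one_iff_eq hcn.ne'] at h5
    have h6 : (1 : ℝ) ≤ (d : ℝ) ^ 4 := one_le_pow₀ (by linarith)
    have h7 : ‖x - c‖ ≤ ‖c‖ := by
      rw [← h5]
      nlinarith [norm_nonneg (x - c)]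
    linarith

theorem F'_ne (h : Good F c d b) : F * PP F c d ≠ 0 := mul_ne_zero h.ne h.P_ne

theorem F'_card (h : Good F c d b) : (F * PP F c d).roots.card = 11 * d + 1 := by
  rw [roots_mul h.F'_ne, Multiset.card_add, h.card,
    (IsAlgClosed.splits (PP F c d)).natDegree_eq_card_roots.symm, h.P_natDegree]
  ring

theorem F'_hb (h : Good F c d b) {x : ℂ} (hx : x ∈ (F * PP F c d).roots) : ‖x‖ ≤ 2 * ‖c‖ := by
  rw [roots_mul h.F'_ne, Multiset.mem_add] at hx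
  rcases hx with hx | hx
  · have := h.hb x hx
    linarith [h.b_lt, h.a1]
  · exact h.P_roots hx

theorem F'_ha (h : Good F c d b) : 16 * ((11 * d + 1 : ℕ) : ℝ) ^ 80 * (1 + 2 * ‖c‖) ^ 2 ≤
    ‖(F * PP F c d).eval c‖ := by
  refine le_trans ?_ h.next_lower
  have hD := h.hD
  have ha := h.a1
  have h1 : ((11 * d + 1 : ℕ) : ℝ) ≤ (d : ℝ) ^ 2 := by push_cast; nlinarith
  have h2 : ((11 * d + 1 : ℕ) : ℝ) ^ 80 ≤ ‖c‖ ^ 2 := by
    calc ((11 * d + 1 : ℕ) : ℝ) ^ 80 ≤ ((d : ℝ) ^ 2) ^ 80 := by gcongr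
      _ = ((d : ℝ) ^ 80) ^ 2 := by ring
      _ ≤ ‖c‖ ^ 2 := by
        have := h.apos
        have h3 : (d : ℝ) ^ 80 ≤ ‖c‖ := by
          have : (0 : ℝ) ≤ (d : ℝ) ^ 80 := by positivity
          linarith
        gcongr
  calc 16 * ((11 * d + 1 : ℕ) : ℝ) ^ 80 * (1 + 2 * ‖c‖) ^ 2
      ≤ 16 * ‖c‖ ^ 2 * (3 * ‖c‖) ^ 2 := by
        gcongr
        linarith
    _ = 144 * ‖c‖ ^ 4 := by ring
    _ ≤ ‖c‖ ^ 1 * ‖c‖ ^ 4 := by
        have : (144 : ℝ) ≤ ‖c‖ ^ 1 := by rw [pow_one]; linarith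
        gcongr
    _ = ‖c‖ ^ 5 := by ring
    _ ≤ ‖c‖ ^ (d / 2) := pow_le_pow_right₀ (by linarith) (by have := h.hd; omega)

theorem F'_big (h : Good F c d b) :
    ‖(F * PP F c d).eval c‖ ^ ((11 * d + 1) / 2) *
      (4 * ((11 * d + 1 : ℕ) : ℝ) * ((11 * d + 1 : ℕ) : ℝ) ^ (40 * (11 * d + 1))) ≤
    ‖(F * PP F c d).eval ((F * PP F c d).eval c)‖ := by
  set d' := 11 * d + 1 with hd'
  set G := F * PP F c d with hG
  set c' := G.eval c with hc'
  have hD := h.hD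
  have ha := h.a1
  have h1 := h.F'_ha
  rw [← hd', ← hG, ← hc'] at h1
  have hD' : (10000 : ℝ) ≤ d' := by rw [hd']; push_cast; linarith
  have hD80 : (1 : ℝ) ≤ (d' : ℝ) ^ 80 := one_le_pow₀ (by linarith)
  have h4a : 4 * ‖c‖ ≤ ‖c'‖ := by nlinarith
  have hlow := eval_lower G h.F'_card (b := 2 * ‖c‖) (fun x hx => h.F'_hb hx) (z := c')
    (by linarith)
  have hup := eval_upper G h.F'_card (b := 2 * ‖c‖) (fun x hx => h.F'_hb hx) c
  rw [← hd'] at hlow hup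
  have hup2 : ‖c'‖ ≤ ‖G.leadingCoeff‖ * (3 * ‖c‖) ^ d' := by
    refine hup.trans (le_of_eq ?_)
    congr 2; ring
  have hc'0 : 0 < ‖c'‖ := by linarith
  have hkey : ‖c'‖ * (‖c'‖ / 2) ^ d' ≤ ‖G.eval c'‖ * (3 * ‖c‖) ^ d' := by
    calc ‖c'‖ * (‖c'‖ / 2) ^ d' ≤ (‖G.leadingCoeff‖ * (3 * ‖c‖) ^ d') * (‖c'‖ - 2 * ‖c‖) ^ d' := by
          gcongr
          linarith
      _ = (‖G.leadingCoeff‖ * (‖c'‖ - 2 * ‖c‖) ^ d') * (3 * ‖c‖) ^ d' := by ring
      _ ≤ _ := by gcongr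
  -- `x = 6 a D'^40`
  set x : ℝ := 6 * ‖c‖ * (d' : ℝ) ^ 40 with hx
  have hx2 : x ^ 2 ≤ ‖c'‖ := by
    have e : x ^ 2 = 36 * ‖c‖ ^ 2 * (d' : ℝ) ^ 80 := by rw [hx]; ring
    rw [e]
    refine le_trans ?_ h1
    nlinarith [norm_nonneg c]
  have hx1 : 1 ≤ x := by
    have : (1 : ℝ) ≤ (d' : ℝ) ^ 40 := one_le_pow₀ (by linarith)
    rw [hx]; nlinarith
  have hxc : x ≤ ‖c'‖ := by nlinarith
  have h4d : 4 * (d' : ℝ) ≤ ‖c'‖ := by
    have e2 : (d' : ℝ) ≤ (d' : ℝ) ^ 80 := by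
      calc (d' : ℝ) = (d' : ℝ) ^ 1 := (pow_one _).symm
        _ ≤ _ := pow_le_pow_right₀ (by linarith) (by norm_num)
    nlinarith
  have hpar : d' / 2 + d' / 2 + d' % 2 = d' := by omega
  have hfin : ‖c'‖ ^ (d' / 2) * (4 * d') * x ^ d' ≤ ‖c'‖ * ‖c'‖ ^ d' := by
    have e1 : x ^ d' = (x ^ 2) ^ (d' / 2) * x ^ (d' % 2) := by
      rw [← pow_mul, ← pow_add]
      congr 1
      omega
    have e2 : ‖c'‖ ^ d' = ‖c'‖ ^ (d' / 2) * ‖c'‖ ^ (d' / 2) * ‖c'‖ ^ (d' % 2) := by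
      rw [← pow_add, ← pow_add, hpar]
    rw [e1, e2]
    calc ‖c'‖ ^ (d' / 2) * (4 * d') * ((x ^ 2) ^ (d' / 2) * x ^ (d' % 2))
        ≤ ‖c'‖ ^ (d' / 2) * ‖c'‖ * (‖c'‖ ^ (d' / 2) * ‖c'‖ ^ (d' % 2)) := by gcongr
      _ = _ := by ring
  have hpos : 0 < (6 * ‖c‖) ^ d' := by positivity
  have e3 : (‖c'‖ ^ (d' / 2) * (4 * (d' : ℝ) * (d' : ℝ) ^ (40 * d'))) * (6 * ‖c‖) ^ d' =
      ‖c'‖ ^ (d' / 2) * (4 * d') * x ^ d' := by
    rw [hx, mul_pow (6 * ‖c‖) ((d' : ℝ) ^ 40), ← pow_mul]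
    ring
  have e4 : ‖c'‖ * ‖c'‖ ^ d' ≤ ‖G.eval c'‖ * (6 * ‖c‖) ^ d' := by
    have e5 : (6 * ‖c‖) ^ d' = 2 ^ d' * (3 * ‖c‖) ^ d' := by rw [← mul_pow]; ring_nf
    have e6 : ‖c'‖ ^ d' = 2 ^ d' * (‖c'‖ / 2) ^ d' := by rw [← mul_pow]; ring_nf
    rw [e5, e6]
    nlinarith [pow_pos (show (0 : ℝ) < 2 by norm_num) d']
  refine le_of_mul_le_mul_right ?_ hpos
  rw [e3]
  exact hfin.trans e4

/-- The induction step. -/
theorem next (h : Good F c d b) :
    Good (F * PP F c d) ((F * PP F c d).eval c) (11 * d + 1) (2 * ‖c‖) where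
  card := h.F'_card
  ne := h.F'_ne
  hd := by have := h.hd; omega
  hb0 := by positivity
  hb := fun x hx => h.F'_hb hx
  ha := h.F'_ha
  big := h.F'_big
  upper := by
    intro z
    rw [eval_mul, norm_mul, show 11 * d + 1 = d + (10 * d + 1) by ring, pow_add]
    have h1 := h.upper z
    have h2 := h.P_upper z
    have := norm_nonneg z
    gcongr

end Good

/-- The start of the induction. -/
theorem good_zero : Good (X ^ 10000 : ℂ[X]) ((10000 : ℂ) ^ 100) 10000 0 where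
  card := by rw [roots_X_pow]; simp
  ne := pow_ne_zero _ X_ne_zero
  hd := le_rfl
  hb0 := le_rfl
  hb := by
    intro x hx
    rw [roots_X_pow] at hx
    have : x = 0 := by
      rw [Multiset.mem_nsmul] at hx
      simpa using hx.2
    simp [this]
  ha := by
    rw [norm_pow]
    norm_num
  big := by
    rw [norm_pow, eval_pow, eval_X, norm_pow, norm_pow]
    have h1 : ‖(10000 : ℂ)‖ = 10000 := by norm_num
    rw [h1]
    have h2 : ((10000 : ℕ) : ℝ) = 10000 := by norm_num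
    rw [h2]
    have e1 : ((10000 : ℝ) ^ 100) ^ (10000 / 2) = 10000 ^ (500000) := by
      rw [← pow_mul]
    have e2 : ((10000 : ℝ) ^ 100) ^ 10000 = 10000 ^ 1000000 := by rw [← pow_mul]
    rw [e1, e2]
    have e3 : (40 * 10000 : ℕ) = 400000 := by norm_num
    rw [e3]
    calc (10000 : ℝ) ^ 500000 * (4 * 10000 * 10000 ^ 400000)
        ≤ (10000 : ℝ) ^ 500000 * (10000 ^ 2 * 10000 ^ 400000) := by
          gcongr
          norm_num
      _ = 10000 ^ (500000 + (2 + 400000)) := by rw [pow_add, pow_add]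
      _ ≤ 10000 ^ 1000000 := pow_le_pow_right₀ (by norm_num) (by norm_num)
  upper := by
    intro z
    rw [eval_pow, eval_X, norm_pow]
    have := norm_nonneg z
    gcongr
    linarith

end Pool.Agent.W723.MC
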