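import Mathlib
import Pool.Agent.H384R2.Fatou

/-!
General facts on Fatou sets of entire functions: invariance, escaping sets, growth comparison
(Harnack) on a Fatou component on which the iterates tend to infinity.
-/

set_option autoImplicit false

open Filter Topology Metric Set

namespace Pool.Agent.W723.MC

open Pool.Agent.H384R2.Fatou

theorem normalOn_mono {F : ℕ → ℂ → ℂ} {U V : Set ℂ} (h : NormalOn F U) (hV : V ⊆ U) :
    NormalOn F V := by
  intro φ
  obtain ⟨ψ, hψ, h1 | h1⟩ := h φ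
  · obtain ⟨g, hg⟩ := h1
    exact ⟨ψ, hψ, Or.inl ⟨g, hg.mono hV⟩⟩
  · exact ⟨ψ, hψ, Or.inr fun K hK hKc R => h1 K (hK.trans hV) hKc R⟩

theorem isOpen_fatou (f : ℂ → ℂ) : IsOpen (FatouSet f) := by
  rw [Metric.isOpen_iff]
  rintro z ⟨r, hr, h⟩
  refine ⟨r / 2, by linarith, fun w hw => ⟨r / 2, by linarith, normalOn_mono h ?_⟩⟩
  apply ball_subset_ball'
  rw [mem_ball] at hw
  linarith

/-- a sequence of naturals has a constant subsequence or one that is eventually positive -/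
theorem exists_subseq0 (φ : ℕ → ℕ) : ∃ ψ : ℕ → ℕ, StrictMono ψ ∧
    ((∀ j, φ (ψ j) = 0) ∨ (∀ j, 1 ≤ φ (ψ j))) := by
  by_cases h : ∃ᶠ j in atTop, φ j = 0
  · obtain ⟨ψ, hψ, h2⟩ := Filter.extraction_of_frequently_atTop h
    exact ⟨ψ, hψ, Or.inl h2⟩
  · rw [Filter.not_frequently] at h
    obtain ⟨N, hN⟩ := Filter.eventually_atTop.1 h
    refine ⟨fun j => j + N, fun a b hab => by simpa using hab, Or.inr fun j => ?_⟩
    have h1 : ¬ φ (j + N) = 0 := hN (j + N) (by omega)
    exact Nat.one_le_iff_ne_zero.2 h1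

theorem fatou_backward {f : ℂ → ℂ} (hf : Continuous f) {z : ℂ} (hz : f z ∈ FatouSet f) :
    z ∈ FatouSet f := by
  obtain ⟨r, hr, hN⟩ := hz
  obtain ⟨s, hs, hsub⟩ := Metric.isOpen_iff.1 (isOpen_ball.preimage hf) z
    (mem_ball_self hr : f z ∈ ball (f z) r)
  refine ⟨s, hs, fun φ => ?_⟩
  obtain ⟨ψ, hψ, h | h⟩ := exists_subseq0 φ
  · refine ⟨ψ, hψ, Or.inl ⟨id, ?_⟩⟩
    have : (fun j => (fun k => f^[k]) (φ (ψ j))) = fun _ => (id : ℂ → ℂ) := by
      funext j; simp [h j]
    rw [this]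
    intro u hu x hx
    exact ⟨univ, univ_mem, Eventually.of_forall fun n y _ => refl_mem_uniformity hu⟩
  · obtain ⟨ψ', hψ', h'⟩ := hN (fun j => φ (ψ j) - 1)
    refine ⟨ψ ∘ ψ', hψ.comp hψ', ?_⟩
    have hit : ∀ j (x : ℂ), f^[φ (ψ (ψ' j))] x = f^[φ (ψ (ψ' j)) - 1] (f x) := by
      intro j x
      rw [← Function.iterate_succ_apply]
      have := h (ψ' j)
      congr 2
      omega
    have hmaps : MapsTo f (ball z s) (ball (f z) r) := hsub
    rcases h' with ⟨g, hg⟩ | hinf
    · left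
      refine ⟨g ∘ f, ?_⟩
      have := hg.comp f hmaps hf.continuousOn
      convert this using 1
      funext j x
      simp only [Function.comp]
      exact hit j x
    · right
      intro K hK hKc R
      have := hinf (f '' K) (by
        rintro _ ⟨x, hx, rfl⟩
        exact hmaps (hK hx)) (hKc.image hf) R
      filter_upwards [this] with j hj w hw
      simp only [Function.comp]
      rw [hit]
      exact hj _ ⟨w, hw, rfl⟩

theorem fatou_forward {f : ℂ → ℂ} (hopen : ∀ s : Set ℂ, IsOpen s → IsOpen (f '' s)) {z : ℂ}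
    (hz : z ∈ FatouSet f) : f z ∈ FatouSet f := by
  classical
  obtain ⟨r, hr, hN⟩ := hz
  have h1 : IsOpen (f '' ball z (r / 2)) := hopen _ isOpen_ball
  have h2 : f z ∈ f '' ball z (r / 2) := ⟨z, mem_ball_self (by linarith), rfl⟩
  obtain ⟨ρ, hρ, hsub⟩ := Metric.isOpen_iff.1 h1 _ h2
  refine ⟨ρ, hρ, fun φ => ?_⟩
  have hcl : closedBall z (r / 2) ⊆ ball z r := closedBall_subset_ball (by linarith)
  have hit : ∀ (j : ℕ) (x : ℂ), f^[j] (f x) = f^[j + 1] x := fun j x =>
    (Function.iterate_succ_apply f j x).symm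
  obtain ⟨ψ, hψ, ⟨g, hg⟩ | hinf⟩ := hN (fun j => φ j + 1)
  · have hgu : TendstoUniformlyOn (fun j => f^[φ (ψ j) + 1]) g atTop (closedBall z (r / 2)) :=
      (tendstoLocallyUniformlyOn_iff_tendstoUniformlyOn_of_compact
        (isCompact_closedBall z (r / 2))).1 (hg.mono hcl)
    refine ⟨ψ, hψ, Or.inl ⟨fun w => if h : ∃ x ∈ ball z (r / 2), f x = w then g h.choose else 0,
      TendstoUniformlyOn.tendstoLocallyUniformlyOn ?_⟩⟩
    rw [Metric.tendstoUniformlyOn_iff] at hgu ⊢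
    intro ε hε
    filter_upwards [hgu ε hε] with j hj w hw
    have h : ∃ x ∈ ball z (r / 2), f x = w := hsub hw
    have hx := h.choose_spec
    have h3 := hj h.choose (ball_subset_closedBall hx.1)
    rw [← hit, hx.2] at h3
    simp only [dif_pos h]
    exact h3
  · refine ⟨ψ, hψ, Or.inr fun K hK _ R => ?_⟩
    filter_upwards [hinf (closedBall z (r / 2)) hcl (isCompact_closedBall _ _) R] with j hj w hw
    obtain ⟨x, hx, hxw⟩ := hsub (hK hw)
    have h3 := hj x (ball_subset_closedBall hx)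
    rw [← hit, hxw] at h3
    exact h3

theorem fatou_forward_iter {f : ℂ → ℂ} (hopen : ∀ s : Set ℂ, IsOpen s → IsOpen (f '' s)) {z : ℂ}
    (hz : z ∈ FatouSet f) (k : ℕ) : f^[k] z ∈ FatouSet f := by
  induction k with
  | zero => exact hz
  | succ k ih =>
    rw [Function.iterate_succ_apply']
    exact fatou_forward hopen ih

theorem component_isOpen (f : ℂ → ℂ) (z : ℂ) : IsOpen (FatouComponent f z) :=
  (isOpen_fatou f).connectedComponentIn

theorem component_map {f : ℂ → ℂ} (hf : Continuous f)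
    (hopen : ∀ s : Set ℂ, IsOpen s → IsOpen (f '' s)) {z : ℂ}
    (hz : z ∈ FatouSet f) (k : ℕ) :
    f^[k] '' FatouComponent f z ⊆ FatouComponent f (f^[k] z) := by
  apply IsPreconnected.subset_connectedComponentIn
  · exact isPreconnected_connectedComponentIn.image _ (hf.iterate k).continuousOn
  · exact ⟨z, mem_connectedComponentIn hz, rfl⟩
  · rintro _ ⟨x, hx, rfl⟩
    exact fatou_forward_iter hopen (connectedComponentIn_subset _ _ hx) k

/-- The iterates of `f` tend to infinity uniformly on `S`. -/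
def EscOn (f : ℂ → ℂ) (S : Set ℂ) : Prop :=
  ∀ R : ℝ, ∀ᶠ n in atTop, ∀ z ∈ S, R ≤ ‖f^[n] z‖

theorem EscOn.mono {f : ℂ → ℂ} {S T : Set ℂ} (h : EscOn f T) (hST : S ⊆ T) : EscOn f S :=
  fun R => (h R).mono fun _ hn z hz => hn z (hST hz)

theorem EscOn.preimage {f : ℂ → ℂ} {S T : Set ℂ} (h : EscOn f T) (hST : MapsTo f S T) :
    EscOn f S := by
  intro R
  have := (tendsto_sub_atTop_nat 1).eventually (h R)
  filter_upwards [this, eventually_ge_atTop 1] with n hn h1 z hz
  obtain ⟨m, rfl⟩ : ∃ m, n = m + 1 := ⟨n - 1, by omega⟩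
  rw [Function.iterate_succ_apply]
  exact hn _ (hST hz)

/-- A sequence of naturals is bounded along a subsequence on which it is constant, or tends to
infinity along a subsequence. -/
theorem exists_subseq' (φ : ℕ → ℕ) : ∃ ψ : ℕ → ℕ, StrictMono ψ ∧
    ((∃ c, ∀ j, φ (ψ j) = c) ∨ Tendsto (fun j => φ (ψ j)) atTop atTop) := by
  by_cases h : ∃ c, ∃ᶠ j in atTop, φ j = c
  · obtain ⟨c, hc⟩ := h
    obtain ⟨ψ, hψ, h2⟩ := Filter.extraction_of_frequently_atTop hc
    exact ⟨ψ, hψ, Or.inl ⟨c, h2⟩⟩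
  · push Not at h
    refine ⟨id, strictMono_id, Or.inr ?_⟩
    rw [Filter.tendsto_atTop]
    intro b
    have : ∀ c ∈ Finset.range b, ∀ᶠ j in atTop, φ j ≠ c := fun c _ => h c
    rw [← Finset.eventually_all] at this
    filter_upwards [this] with j hj
    by_contra hlt
    exact hj (φ j) (Finset.mem_range.2 (by simpa using hlt)) rfl

theorem tlu_const (g : ℂ → ℂ) (U : Set ℂ) :
    TendstoLocallyUniformlyOn (fun _ : ℕ => g) g atTop U := by
  intro u hu x _
  exact ⟨univ, univ_mem, Eventually.of_forall fun n y _ => refl_mem_uniformity hu⟩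

theorem normalOn_of_escOn {f : ℂ → ℂ} {S : Set ℂ} (h : EscOn f S) :
    NormalOn (fun k => f^[k]) S := by
  intro φ
  obtain ⟨ψ, hψ, ⟨c, hc⟩ | ht⟩ := exists_subseq' φ
  · refine ⟨ψ, hψ, Or.inl ⟨f^[c], ?_⟩⟩
    have : (fun j => (fun k => f^[k]) (φ (ψ j))) = fun _ => f^[c] := by
      funext j; simp [hc j]
    rw [this]
    exact tlu_const _ _
  · refine ⟨ψ, hψ, Or.inr fun K hK _ R => ?_⟩
    filter_upwards [ht.eventually (h R)] with j hj z hz
    exact hj z (hK hz)

theorem mem_fatou_of_escOn {f : ℂ → ℂ} {S : Set ℂ} (h : EscOn f S) {z : ℂ} (hz : S ∈ 𝓝 z) :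
    z ∈ FatouSet f := by
  obtain ⟨r, hr, hsub⟩ := Metric.mem_nhds_iff.1 hz
  exact ⟨r, hr, normalOn_of_escOn (h.mono hsub)⟩

theorem subset_fatou_of_escOn {f : ℂ → ℂ} {S : Set ℂ} (h : EscOn f S) (hS : IsOpen S) :
    S ⊆ FatouSet f := fun _ hz => mem_fatou_of_escOn h (hS.mem_nhds hz)

/-- If the iterates are normal on a disc and escape at one point of it, they escape locally
uniformly on the disc. -/
theorem escOn_of_normal {f : ℂ → ℂ} {z : ℂ} {r : ℝ}
    (hN : NormalOn (fun k => f^[k]) (ball z r)) {p : ℂ} (hp : p ∈ ball z r)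
    (hesc : Tendsto (fun n => ‖f^[n] p‖) atTop atTop) {K : Set ℂ} (hK : IsCompact K)
    (hKs : K ⊆ ball z r) : EscOn f K := by
  intro R
  by_contra hcon
  rw [Filter.not_eventually] at hcon
  obtain ⟨φ, hφ, h2⟩ := Filter.extraction_of_frequently_atTop hcon
  obtain ⟨ψ, hψ, ⟨g, hg⟩ | hinf⟩ := hN φ
  · have h3 : Tendsto (fun j => f^[φ (ψ j)] p) atTop (𝓝 (g p)) := hg.tendsto_at hp
    have h4 : Tendsto (fun j => ‖f^[φ (ψ j)] p‖) atTop atTop :=
      hesc.comp (hφ.comp hψ).tendsto_atTop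
    exact not_tendsto_nhds_of_tendsto_atTop h4 _ h3.norm
  · obtain ⟨j, hj⟩ := (hinf K hKs hK R).exists
    exact h2 (ψ j) hj

/-- On a Fatou component containing a point with an escaping neighbourhood, the iterates tend to
infinity near every point. -/
theorem esc_near {f : ℂ → ℂ} {p : ℂ} (hpF : p ∈ FatouSet f) {S : Set ℂ} (hS : S ∈ 𝓝 p)
    (hE : EscOn f S) {q : ℂ} (hq : q ∈ FatouComponent f p) :
    ∃ r : ℝ, 0 < r ∧ ball q r ⊆ FatouComponent f p ∧ EscOn f (ball q r) := by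
  set W := FatouComponent f p with hW
  have hWo : IsOpen W := component_isOpen f p
  have hWc : IsPreconnected W := isPreconnected_connectedComponentIn
  set T : Set ℂ := {w | ∃ r : ℝ, 0 < r ∧ EscOn f (ball w r)} with hT
  have hTo : IsOpen T := by
    rw [Metric.isOpen_iff]
    rintro w ⟨r, hr, h⟩
    refine ⟨r / 2, by linarith, fun v hv => ⟨r / 2, by linarith, h.mono ?_⟩⟩
    apply ball_subset_ball'
    rw [mem_ball] at hv
    linarith
  have hsub : W ⊆ T := by
    apply hWc.subset_of_closure_inter_subset hTo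
    · refine ⟨p, mem_connectedComponentIn hpF, ?_⟩
      obtain ⟨r, hr, hsub⟩ := Metric.mem_nhds_iff.1 hS
      exact ⟨r, hr, hE.mono hsub⟩
    · rintro w ⟨hwT, hwW⟩
      obtain ⟨r, hr, hN⟩ := connectedComponentIn_subset _ _ hwW
      obtain ⟨v, ⟨s, hs, hvs⟩, hv⟩ := Metric.mem_closure_iff.1 hwT r hr
      have hv' : v ∈ ball w r := by rwa [mem_ball, dist_comm]
      refine ⟨r / 2, by linarith, (escOn_of_normal hN hv' ?_ (isCompact_closedBall w (r / 2))
        (closedBall_subset_ball (by linarith))).mono ball_subset_closedBall⟩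
      rw [Filter.tendsto_atTop]
      intro R
      filter_upwards [hvs R] with n hn
      exact hn v (mem_ball_self hs)
  obtain ⟨r, hr, h⟩ := hsub hq
  obtain ⟨s, hs, h'⟩ := Metric.isOpen_iff.1 hWo q hq
  exact ⟨min r s, lt_min hr hs, (ball_subset_ball (min_le_right _ _)).trans h',
    h.mono (ball_subset_ball (min_le_left _ _))⟩

/-! ### Harnack -/

theorem exists_log_ball {f : ℂ → ℂ} {c : ℂ} {r : ℝ} (hr : 0 < r)
    (hf : DifferentiableOn ℂ f (ball c r)) (h0 : ∀ z ∈ ball c r, f z ≠ 0) :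
    ∃ g : ℂ → ℂ, DifferentiableOn ℂ g (ball c r) ∧ ∀ z ∈ ball c r, Complex.exp (g z) = f z := by
  have hd : DifferentiableOn ℂ (fun z => deriv f z / f z) (ball c r) :=
    (hf.deriv isOpen_ball).div hf h0
  obtain ⟨F, hF0, hF⟩ := hd.isExactOn_ball.with_val_at c (Complex.log (f c))
  have hFd : DifferentiableOn ℂ F (ball c r) :=
    fun z hz => (hF z hz).differentiableAt.differentiableWithinAt
  refine ⟨F, hFd, fun z hz => ?_⟩
  have hz0 : c ∈ ball c r := mem_ball_self hr
  have hc : f z * Complex.exp (-F z) = f c * Complex.exp (-F c) := by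
    refine isOpen_ball.is_const_of_deriv_eq_zero (convex_ball c r).isPreconnected
      (f := fun z => f z * Complex.exp (-F z)) (hf.mul hFd.neg.cexp) ?_ hz hz0
    intro x hx
    have h1 : HasDerivAt f (deriv f x) x :=
      (hf.differentiableAt (isOpen_ball.mem_nhds hx)).hasDerivAt
    have h2 := h1.mul (hF x hx).neg.cexp
    simp only [Pi.zero_apply]
    refine Eq.trans h2.deriv ?_
    have := h0 x hx
    field_simp
    ring
  rw [hF0, Complex.exp_neg, Complex.exp_neg, Complex.exp_log (h0 c hz0),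
    mul_inv_cancel₀ (h0 c hz0)] at hc
  have := mul_inv_eq_one₀ (Complex.exp_ne_zero (F z)) |>.1 hc
  exact this.symm

theorem harnack_half {g : ℂ → ℂ} {c : ℂ} {r : ℝ} (hr : 0 < r)
    (hg : DifferentiableOn ℂ g (ball c r)) (h1 : ∀ z ∈ ball c r, 1 < ‖g z‖) {z : ℂ} {t : ℝ}
    (ht : 0 ≤ t) (hz : dist z c ≤ t * r) (ht1 : t < 1) :
    Real.log ‖g z‖ ≤ (1 + 2 * t / (1 - t)) * Real.log ‖g c‖ := by
  have h0 : ∀ z ∈ ball c r, g z ≠ 0 := fun z hz h => by
    have := h1 z hz
    rw [h, norm_zero] at this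
    linarith
  obtain ⟨L, hLd, hL⟩ := exists_log_ball hr hg h0
  have hre : ∀ w ∈ ball c r, (L w).re = Real.log ‖g w‖ := by
    intro w hw
    rw [← hL w hw, Complex.norm_exp, Real.log_exp]
  have hcm : c ∈ ball c r := mem_ball_self hr
  have hmem : ∀ w ∈ ball (0 : ℂ) r, c + w ∈ ball c r := by
    intro w hw
    simpa [mem_ball, dist_eq_norm] using hw
  have hM : 0 < Real.log ‖g c‖ := Real.log_pos (h1 c hcm)
  have hd : DifferentiableOn ℂ (fun w => L c - L (c + w)) (ball 0 r) := by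
    refine DifferentiableOn.const_sub ?_ _
    exact DifferentiableOn.comp hLd (by fun_prop) hmem
  have hmaps : Set.MapsTo (fun w => L c - L (c + w)) (ball 0 r)
      {z | z.re ≤ Real.log ‖g c‖} := by
    intro w hw
    simp only [Set.mem_ofPred_eq, Complex.sub_re]
    have h2 := hre _ (hmem w hw)
    have h3 := Real.log_pos (h1 _ (hmem w hw))
    rw [hre c hcm, h2]
    linarith
  have htr : t * r < r := by nlinarith
  have hzm : z - c ∈ ball (0 : ℂ) r := by
    rw [mem_ball_zero_iff, ← dist_eq_norm]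
    linarith
  have h := Complex.borelCaratheodory_zero hM hd hmaps hr hzm (by simp)
  simp only [add_sub_cancel] at h
  have hzr : ‖z - c‖ ≤ t * r := by rwa [← dist_eq_norm]
  have h2 : -(L c - L z).re ≤ 2 * Real.log ‖g c‖ * ‖z - c‖ / (r - ‖z - c‖) := by
    have := (abs_le.1 (Complex.abs_re_le_norm (L c - L z))).1
    linarith
  have hz2 : z ∈ ball c r := by rw [mem_ball]; linarith
  rw [Complex.sub_re, hre c hcm, hre z hz2] at h2
  have h3 : 2 * Real.log ‖g c‖ * ‖z - c‖ / (r - ‖z - c‖) ≤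
      2 * Real.log ‖g c‖ * (t * r) / (r - t * r) := by
    have h5 : 0 < r - t * r := by linarith
    gcongr
  have h4 : 2 * Real.log ‖g c‖ * (t * r) / (r - t * r) = 2 * t / (1 - t) * Real.log ‖g c‖ := by
    have h5 : 1 - t ≠ 0 := by linarith
    have h6 : r - t * r ≠ 0 := by
      have : r - t * r = r * (1 - t) := by ring
      rw [this]; positivity
    rw [div_eq_iff h6]
    field_simp
  linarith

/-- Growth comparison on a Fatou component on which the iterates tend to infinity. -/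
theorem growth_compare {f : ℂ → ℂ} (hf : Differentiable ℂ f) {p : ℂ} (hpF : p ∈ FatouSet f)
    {S : Set ℂ} (hS : S ∈ 𝓝 p) (hE : EscOn f S) {q : ℂ} (hq : q ∈ FatouComponent f p) :
    ∃ C : ℝ, 0 < C ∧ ∀ᶠ n in atTop, Real.log ‖f^[n] q‖ ≤ C * Real.log ‖f^[n] p‖ ∧
      Real.log ‖f^[n] p‖ ≤ C * Real.log ‖f^[n] q‖ := by
  set W := FatouComponent f p with hW
  have hWc : IsPreconnected W := isPreconnected_connectedComponentIn
  -- local comparison
  have hloc : ∀ w ∈ W, ∃ r : ℝ, 0 < r ∧ ∀ v ∈ ball w r, ∀ᶠ n in atTop,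
      Real.log ‖f^[n] v‖ ≤ 5 * Real.log ‖f^[n] w‖ ∧
      Real.log ‖f^[n] w‖ ≤ 5 * Real.log ‖f^[n] v‖ := by
    intro w hw
    obtain ⟨r, hr, -, hesc⟩ := esc_near hpF hS hE hw
    refine ⟨r / 4, by linarith, fun v hv => ?_⟩
    filter_upwards [hesc 2] with n hn
    have hd : DifferentiableOn ℂ f^[n] (ball w r) := (hf.iterate n).differentiableOn
    have hlt : ∀ z ∈ ball w r, 1 < ‖f^[n] z‖ := fun z hz => by
      have := hn z hz
      linarith
    have hvr : dist v w < r / 4 := hv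
    have hsub : ball v (3 * r / 4) ⊆ ball w r := by
      apply ball_subset_ball'
      linarith
    have hvw : 0 < Real.log ‖f^[n] w‖ := Real.log_pos (hlt w (mem_ball_self hr))
    constructor
    · have := harnack_half hr hd hlt (z := v) (t := 1 / 4) (by norm_num) (by linarith)
        (by norm_num)
      norm_num at this
      linarith
    · have := harnack_half (c := v) (r := 3 * r / 4) (by linarith) (hd.mono hsub)
        (fun z hz => hlt z (hsub hz)) (z := w) (t := 1 / 3) (by norm_num)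
        (by rw [dist_comm]; linarith) (by norm_num)
      norm_num at this
      have h3 : 0 < Real.log ‖f^[n] v‖ :=
        Real.log_pos (hlt v (hsub (mem_ball_self (by linarith))))
      linarith
  set T : Set ℂ := {w | ∃ C : ℝ, 0 < C ∧ ∀ᶠ n in atTop,
    Real.log ‖f^[n] w‖ ≤ C * Real.log ‖f^[n] p‖ ∧
      Real.log ‖f^[n] p‖ ≤ C * Real.log ‖f^[n] w‖} with hT
  have hstep : ∀ w v, w ∈ T → (∀ᶠ n in atTop,
      Real.log ‖f^[n] v‖ ≤ 5 * Real.log ‖f^[n] w‖ ∧
      Real.log ‖f^[n] w‖ ≤ 5 * Real.log ‖f^[n] v‖) → v ∈ T := by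
    rintro w v ⟨C, hC, h⟩ h'
    refine ⟨5 * C, by positivity, ?_⟩
    filter_upwards [h, h'] with n ⟨h1, h2⟩ ⟨h3, h4⟩
    constructor
    · linarith
    · calc Real.log ‖f^[n] p‖ ≤ C * Real.log ‖f^[n] w‖ := h2
        _ ≤ C * (5 * Real.log ‖f^[n] v‖) := by gcongr
        _ = 5 * C * Real.log ‖f^[n] v‖ := by ring
  -- connectedness argument
  by_contra hcon
  have hqT : q ∉ T := hcon
  have hA : IsOpen (W ∩ T) := by
    rw [isOpen_iff_mem_nhds]
    rintro w ⟨hw, hwT⟩
    obtain ⟨r, hr, h⟩ := hloc w hw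
    filter_upwards [ball_mem_nhds w hr, (component_isOpen f p).mem_nhds hw] with v hv hvW
    exact ⟨hvW, hstep w v hwT (h v hv)⟩
  have hB : IsOpen (W ∩ Tᶜ) := by
    rw [isOpen_iff_mem_nhds]
    rintro w ⟨hw, hwT⟩
    obtain ⟨r, hr, h⟩ := hloc w hw
    filter_upwards [ball_mem_nhds w hr, (component_isOpen f p).mem_nhds hw] with v hv hvW
    exact ⟨hvW, fun hvT => hwT (hstep v w hvT ((h v hv).mono fun n hn => ⟨hn.2, hn.1⟩))⟩
  have hpT : p ∈ T := ⟨1, one_pos, Eventually.of_forall fun n => by simp⟩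
  have hpW : p ∈ W := mem_connectedComponentIn hpF
  obtain ⟨x, hx, hx1, hx2⟩ := hWc _ _ hA hB (fun x hx => by
    by_cases hxT : x ∈ T
    · exact Or.inl ⟨hx, hxT⟩
    · exact Or.inr ⟨hx, hxT⟩) ⟨p, hpW, hpW, hpT⟩ ⟨q, hq, hq, hqT⟩
  exact hx2.2 hx1.2

end Pool.Agent.W723.MC
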